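import Mathlib

/-! Openness of the cone over the image of a map which is transverse to the rays. -/

open scoped Topology ContDiff Manifold
open Set Filter

noncomputable section

set_option linter.unusedSectionVars false

namespace Pool.Agent.K4H32.WD

variable {E : Type*} [NormedAddCommGroup E] [NormedSpace ℝ E] [FiniteDimensional ℝ E]
  {P : Type*} [TopologicalSpace P] [ChartedSpace E P] {n : ℕ}

theorem cone_nhds (h : P → (Fin n → ℝ)) (hsm : ContMDiff 𝓘(ℝ, E) 𝓘(ℝ, Fin n → ℝ) ∞ h) (x : P)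
    (hreg : ∀ ζ : Fin n → ℝ, (∑ i, ζ i * h x i = 0) →
      (∀ v : E, ∑ i, ζ i * (show Fin n → ℝ from mfderiv 𝓘(ℝ, E) 𝓘(ℝ, Fin n → ℝ) h x v) i = 0) →
      ζ = 0) :
    ∀ᶠ y in 𝓝 (h x), ∃ (x' : P) (s : ℝ), 0 < s ∧ y = s • h x' := by
  have : CompleteSpace E := FiniteDimensional.complete ℝ E
  set z₀ : E := extChartAt 𝓘(ℝ, E) x x with hz₀
  let g : E → (Fin n → ℝ) := fun z => h ((extChartAt 𝓘(ℝ, E) x).symm z)
  have hgx : g z₀ = h x := by simp [g, z₀]
  have hgc : ContDiffAt ℝ ∞ g z₀ := by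
    have h1 := (contMDiffAt_iff.1 (hsm x)).2
    rw [ModelWithCorners.range_eq_univ, contDiffWithinAt_univ] at h1
    exact h1
  have hg' : HasStrictFDerivAt g (mfderiv 𝓘(ℝ, E) 𝓘(ℝ, Fin n → ℝ) h x : E →L[ℝ] (Fin n → ℝ)) z₀ := by
    have h1 := hgc.hasStrictFDerivAt (by simp)
    have h2 := (hsm.mdifferentiableAt (x := x) (by simp)).hasMFDerivAt.2
    rw [ModelWithCorners.range_eq_univ, hasFDerivWithinAt_univ] at h2
    have h3 : fderiv ℝ g z₀ = (mfderiv 𝓘(ℝ, E) 𝓘(ℝ, Fin n → ℝ) h x : E →L[ℝ] (Fin n → ℝ)) :=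
      HasFDerivAt.fderiv h2
    rw [← h3]
    exact h1
  set g' : E →L[ℝ] (Fin n → ℝ) := (mfderiv 𝓘(ℝ, E) 𝓘(ℝ, Fin n → ℝ) h x : E →L[ℝ] (Fin n → ℝ))
    with hg'def
  let f : E × ℝ → (Fin n → ℝ) := fun p => (1 + p.2) • g p.1
  let f' : E × ℝ →L[ℝ] (Fin n → ℝ) :=
    g'.comp (ContinuousLinearMap.fst ℝ E ℝ) +
      (ContinuousLinearMap.snd ℝ E ℝ).smulRight (h x)
  have hf : HasStrictFDerivAt f f' (z₀, 0) := by
    have h1 : HasStrictFDerivAt (fun p : E × ℝ => (1 : ℝ) + p.2) (ContinuousLinearMap.snd ℝ E ℝ)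
        (z₀, 0) := (hasStrictFDerivAt_snd).const_add 1
    have h2 : HasStrictFDerivAt (fun p : E × ℝ => g p.1) (g'.comp (ContinuousLinearMap.fst ℝ E ℝ))
        (z₀, (0:ℝ)) := HasStrictFDerivAt.comp (g := g) (f := Prod.fst) (z₀, (0:ℝ)) hg'
          hasStrictFDerivAt_fst
    have h3 := h1.smul h2
    refine h3.congr_fderiv ?_
    ext v
    · simp [f']
    · simp [f', hgx]
  have hsurj : f'.range = ⊤ := by
    by_contra hne
    obtain ⟨φ, hφ0, hφ⟩ := Submodule.exists_le_ker_of_lt_top f'.range (lt_top_iff_ne_top.2 hne)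
    have hφv : ∀ p, φ (f' p) = 0 := fun p => hφ ⟨p, rfl⟩
    let ζ : Fin n → ℝ := fun i => φ (Pi.single i 1)
    have hζ : ∀ y : Fin n → ℝ, φ y = ∑ i, ζ i * y i := by
      intro y
      conv_lhs => rw [← Finset.univ_sum_single y]
      rw [map_sum]
      refine Finset.sum_congr rfl fun i _ => ?_
      have e1 : (Pi.single i (y i) : Fin n → ℝ) = y i • Pi.single i (1:ℝ) := by
        rw [← Pi.single_smul, smul_eq_mul, mul_one]
      rw [e1, map_smul, smul_eq_mul, mul_comm]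
    have h0 : ζ = 0 := by
      apply hreg
      · rw [← hζ]
        have := hφv (0, 1)
        simpa [f'] using this
      · intro v
        rw [← hζ]
        have h1 := hφv (v, 0)
        have e1 : f' (v, 0) = g' v := by simp [f']
        rw [e1] at h1
        exact h1
    apply hφ0
    ext i
    have h1 : ζ i = 0 := by rw [h0]; rfl
    simpa [ζ] using h1
  have hmap := hf.map_nhds_eq_of_surj hsurj
  have hf0 : f (z₀, 0) = h x := by simp [f, hgx]
  rw [hf0] at hmap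
  rw [← hmap, Filter.eventually_map]
  have h1 : ∀ᶠ p : E × ℝ in 𝓝 (z₀, (0:ℝ)), (-1 : ℝ) < p.2 := by
    have h2 : Tendsto (fun p : E × ℝ => p.2) (𝓝 (z₀, (0:ℝ))) (𝓝 0) := continuous_snd.tendsto _
    exact h2.eventually (lt_mem_nhds (by norm_num))
  filter_upwards [h1] with p hp
  exact ⟨(extChartAt 𝓘(ℝ, E) x).symm p.1, 1 + p.2, by linarith, rfl⟩

end Pool.Agent.K4H32.WD
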