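import Mathlib
import Pool.Agent.K4H32.W.RealForm

/-! Elements of a real semisimple Lie algebra all of whose neighbours have real eigenvalues in the
adjoint representation. -/

open Module Module.End LieAlgebra
open scoped TensorProduct ComplexConjugate

noncomputable section

set_option linter.unusedSectionVars false

namespace Pool.Agent.K4H32.WD

open Pool.Agent.K4H32.W

section linear

variable {V : Type*} [AddCommGroup V] [Module ℂ V] [FiniteDimensional ℂ V]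

lemma gen_ne_bot {T : End ℂ V} {v : V} {l : ℂ} (hv : v ≠ 0) (h : T v = l • v) :
    T.maxGenEigenspace l ≠ ⊥ := by
  intro h0
  have h1 : v ∈ T.maxGenEigenspace l := by
    rw [Module.End.mem_maxGenEigenspace]
    exact ⟨1, by simp [h]⟩
  rw [h0] at h1
  exact hv ((Submodule.mem_bot ℂ).1 h1)

lemma exists_joint {S Y : End ℂ V} (h : Commute S Y) {ν : ℂ} (hν : Y.maxGenEigenspace ν ≠ ⊥) :
    ∃ v : V, v ≠ 0 ∧ ∃ μ : ℂ, Y v = ν • v ∧ S v = μ • v := by
  obtain ⟨y, hy0, hy⟩ := exists_eigenvector hν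
  have hmap : ∀ x ∈ Y.eigenspace ν, S x ∈ Y.eigenspace ν := by
    intro x hx
    rw [Module.End.mem_eigenspace_iff] at hx ⊢
    have h1 : Y (S x) = S (Y x) := (LinearMap.congr_fun h.eq x).symm
    rw [h1, hx, map_smul]
  have hne : Nontrivial (Y.eigenspace ν) := by
    refine ⟨⟨⟨y, ?_⟩, 0, ?_⟩⟩
    · rw [Module.End.mem_eigenspace_iff]; exact hy
    · intro h0
      exact hy0 (congrArg Subtype.val h0)
  obtain ⟨μ, hμ⟩ := Module.End.exists_eigenvalue (S.restrict hmap)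
  obtain ⟨w, hw⟩ := hμ.exists_hasEigenvector
  refine ⟨w, ?_, μ, ?_, ?_⟩
  · intro h0
    exact hw.2 (Subtype.ext h0)
  · exact Module.End.mem_eigenspace_iff.1 w.2
  · have h1 := congrArg Subtype.val hw.apply_eq_smul
    exact h1

lemma cal_eigen {T : End ℂ V} {f : ℂ → ℂ} {v : V} {μ : ℂ} (hv : v ≠ 0) (h : cal T f v = μ • v) :
    ∃ l, T.maxGenEigenspace l ≠ ⊥ ∧ f l = μ := by
  classical
  by_contra hcon
  push Not at hcon
  have h1 : cal T (fun l => (f l - μ)⁻¹ * (f l - μ)) = 1 := by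
    refine ext_gen T fun l w hw => ?_
    rw [cal_apply T _ hw, Module.End.one_apply]
    by_cases hl : T.maxGenEigenspace l = ⊥
    · rw [hl] at hw
      rw [(Submodule.mem_bot ℂ).1 hw]; simp
    · have h2 : f l - μ ≠ 0 := sub_ne_zero.2 (hcon l hl)
      rw [inv_mul_cancel₀ h2, one_smul]
  have h2 : cal T (fun l => f l - μ) = cal T f - μ • (1 : End ℂ V) := by
    refine ext_gen T fun l w hw => ?_
    rw [cal_apply T _ hw, LinearMap.sub_apply, cal_apply T f hw, LinearMap.smul_apply,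
      Module.End.one_apply, sub_smul]
  have h3 : cal T (fun l => (f l - μ)⁻¹ * (f l - μ)) v = 0 := by
    rw [← cal_mul, Module.End.mul_apply, h2, LinearMap.sub_apply, h, LinearMap.smul_apply,
      Module.End.one_apply, sub_self, map_zero]
  rw [h1] at h3
  exact hv h3

/-- all eigenvalues are real -/
def RealRooted (T : End ℂ V) : Prop := ∀ l : ℂ, T.maxGenEigenspace l ≠ ⊥ → l.im = 0

lemma trace_sq (Y : End ℂ V) : LinearMap.trace ℂ V (Y * Y) =
    LinearMap.trace ℂ V (cal Y (fun l => l * l)) := by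
  set N := Y - cal Y id with hN
  have hnil : IsNilpotent N := nil_part Y
  have hYc : Commute Y (cal Y id) := commute_self_cal Y id
  have hc1 : Commute N Y := by
    rw [hN]
    exact (Commute.refl Y).sub_left hYc.symm
  have hc2 : Commute N (cal Y id) := by
    rw [hN]
    exact hYc.sub_left (Commute.refl _)
  have e : Y * Y = cal Y (fun l => l * l) + N * (Y + cal Y id) := by
    have e1 : cal Y (fun l => l * l) = cal Y id * cal Y id := by
      rw [cal_mul]; rfl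
    rw [e1]
    have e2 : N * (Y + cal Y id) = Y * Y + (Y * cal Y id - cal Y id * Y) - cal Y id * cal Y id := by
      rw [hN]; noncomm_ring
    rw [e2, hYc.eq, sub_self]
    abel
  rw [e, map_add, trace_nil_mul hnil (hc1.add_right hc2), add_zero]

lemma trace_sq_real {Y : End ℂ V} (h : RealRooted Y) :
    ∃ r : ℝ, 0 ≤ r ∧ LinearMap.trace ℂ V (Y * Y) = (r : ℂ) ∧
      (r = 0 → ∀ l : ℂ, Y.maxGenEigenspace l ≠ ⊥ → l = 0) := by
  refine ⟨∑ l ∈ (finite_gen Y).toFinset, (finrank ℂ (Y.maxGenEigenspace l) : ℝ) * (l.re * l.re),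
    Finset.sum_nonneg fun l _ => mul_nonneg (Nat.cast_nonneg _) (mul_self_nonneg _), ?_, ?_⟩
  · rw [trace_sq, trace_cal]
    push_cast
    refine Finset.sum_congr rfl fun l hl => ?_
    have h1 : l.im = 0 := h l (by simpa using hl)
    have h2 : l = (l.re : ℂ) := Complex.ext rfl (by simpa using h1)
    rw [← h2]
  · intro h0 l hl
    rw [Finset.sum_eq_zero_iff_of_nonneg
      (fun l _ => mul_nonneg (Nat.cast_nonneg _) (mul_self_nonneg _))] at h0
    have h1 := h0 l (by simpa using hl)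
    have h2 : (finrank ℂ (Y.maxGenEigenspace l) : ℝ) ≠ 0 := by
      have h3 : finrank ℂ (Y.maxGenEigenspace l) ≠ 0 := by
        intro h4
        exact hl (Submodule.finrank_eq_zero.1 h4)
      exact_mod_cast h3
    have h3 := (mul_eq_zero.1 h1).resolve_left h2
    have h4 : l.re = 0 := by simpa using h3
    exact Complex.ext h4 (h l hl)

end linear

variable {𝔤 : Type*} [LieRing 𝔤] [LieAlgebra ℝ 𝔤] [FiniteDimensional ℝ 𝔤]

/-- the complexified adjoint operator -/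
abbrev tt (A : 𝔤) : End ℂ (LC 𝔤) := (ad ℝ 𝔤 A).baseChange ℂ

lemma tt_eq (A : 𝔤) : tt A = ad ℂ (LC 𝔤) ((1 : ℂ) ⊗ₜ[ℝ] A) := (ad_one_tmul A).symm

lemma tt_add (A B : 𝔤) : tt (A + B) = tt A + tt B := by
  show (ad ℝ 𝔤 (A + B)).baseChange ℂ = _
  rw [map_add, LinearMap.baseChange_add]

lemma tt_smul (t : ℝ) (A : 𝔤) : tt (t • A) = (t : ℂ) • tt A := by
  show (ad ℝ 𝔤 (t • A)).baseChange ℂ = _
  rw [map_smul, LinearMap.baseChange_smul]
  rfl

lemma sig_one_tmul (x : 𝔤) : sig ((1 : ℂ) ⊗ₜ[ℝ] x) = (1 : ℂ) ⊗ₜ[ℝ] x := by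
  rw [sig_tmul, map_one]

lemma real_of_sig {c : LC 𝔤} (h : sig c = c) : ∃ w : 𝔤, c = (1 : ℂ) ⊗ₜ[ℝ] w := by
  obtain ⟨x, y, rfl⟩ := exists_re_im c
  refine ⟨x, ?_⟩
  rw [map_add, sig_smul, sig_one_tmul, sig_one_tmul, Complex.conj_I, neg_smul] at h
  have h1 : (2 : ℂ) • (Complex.I • ((1 : ℂ) ⊗ₜ[ℝ] y)) = 0 := by
    have h2 := add_left_cancel h
    rw [two_smul]
    nth_rw 1 [← h2]
    simp
  have h3 := (smul_eq_zero.1 h1).resolve_left two_ne_zero
  rw [h3, add_zero]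

lemma one_tmul_inj {x y : 𝔤} (h : (1 : ℂ) ⊗ₜ[ℝ] x = (1 : ℂ) ⊗ₜ[ℝ] y) : x = y := by
  let b := Module.finBasis ℝ 𝔤
  apply b.repr.injective
  ext i
  have h1 := congrArg (fun c => (Algebra.TensorProduct.basis ℂ b).repr c i) h
  simpa using h1

/-- the real-linear projection to the kernel -/
lemma exists_proj (A y : 𝔤) : ∃ w : 𝔤,
    cal (tt A) (fun l => if l = 0 then 1 else 0) ((1 : ℂ) ⊗ₜ[ℝ] y) = (1 : ℂ) ⊗ₜ[ℝ] w := by
  apply real_of_sig
  have h1 := sig_cal (ad ℝ 𝔤 A) (fun l => if l = 0 then 1 else 0) ((1 : ℂ) ⊗ₜ[ℝ] y)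
  rw [sig_one_tmul] at h1
  rw [h1]
  congr 2
  ext l
  by_cases hl : l = 0
  · simp [hl]
  · have : conj l ≠ 0 := by simpa using hl
    rw [if_neg hl, if_neg this, map_zero]

section killing

variable [LieAlgebra.IsKilling ℝ 𝔤]

lemma killing_real_zero {n : LC 𝔤}
    (h : ∀ y : 𝔤, killingForm ℂ (LC 𝔤) n ((1 : ℂ) ⊗ₜ[ℝ] y) = 0) : n = 0 := by
  apply eq_zero_of_killing
  intro c
  obtain ⟨x, y, rfl⟩ := exists_re_im c
  rw [map_add, map_smul, h, h]
  simp

lemma killing_zero {x : 𝔤} (h : ∀ y : 𝔤, killingForm ℝ 𝔤 x y = 0) : x = 0 := by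
  have h1 : (1 : ℂ) ⊗ₜ[ℝ] x = (0 : LC 𝔤) := by
    apply killing_real_zero
    intro y
    rw [killing_one_tmul, h]
    simp
  apply one_tmul_inj
  rw [h1, TensorProduct.tmul_zero]

/-- decomposition into the centraliser of the semisimple part and its complement -/
lemma decomp (A y : 𝔤) {s : LC 𝔤} (hs : ad ℂ (LC 𝔤) s = cal (tt A) id) :
    ∃ w : 𝔤, ⁅s, (1 : ℂ) ⊗ₜ[ℝ] w⁆ = 0 ∧ ∃ z : LC 𝔤,
      (1 : ℂ) ⊗ₜ[ℝ] y = (1 : ℂ) ⊗ₜ[ℝ] w + ⁅s, z⁆ := by
  obtain ⟨w, hw⟩ := exists_proj A y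
  refine ⟨w, ?_, cal (tt A) (fun l => l⁻¹) ((1 : ℂ) ⊗ₜ[ℝ] y), ?_⟩
  · have h2 : ad ℂ (LC 𝔤) s ((1 : ℂ) ⊗ₜ[ℝ] w) = 0 := by
      rw [hs, ← hw, ← Module.End.mul_apply, cal_mul]
      have e : (fun l : ℂ => id l * (if l = 0 then (1:ℂ) else 0)) = fun _ => 0 := by
        ext l
        by_cases hl : l = 0 <;> simp [hl]
      rw [e]
      have e2 : cal (tt A) (fun _ => 0) = 0 := by
        refine ext_gen (tt A) fun l v hv => ?_
        rw [cal_apply _ _ hv]; simp
      rw [e2]; rfl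
    exact h2
  · have h4 : ⁅s, cal (tt A) (fun l => l⁻¹) ((1 : ℂ) ⊗ₜ[ℝ] y)⁆ =
        ad ℂ (LC 𝔤) s (cal (tt A) (fun l => l⁻¹) ((1 : ℂ) ⊗ₜ[ℝ] y)) := rfl
    rw [h4, hs, ← hw, ← Module.End.mul_apply, cal_mul, ← LinearMap.add_apply]
    have e2 : cal (tt A) (fun l => if l = 0 then (1:ℂ) else 0) +
        cal (tt A) (fun l => id l * l⁻¹) = 1 := by
      refine ext_gen (tt A) fun l v hv => ?_
      rw [LinearMap.add_apply, cal_apply _ _ hv, cal_apply _ _ hv, ← add_smul,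
        Module.End.one_apply]
      by_cases hl : l = 0
      · simp [hl]
      · simp [hl]
    rw [e2]; rfl

/-- An element all of whose neighbours have real eigenvalues is semisimple. -/
theorem semisimple_of_cone {A : 𝔤}
    (hA : ∀ w : 𝔤, ∃ ε : ℝ, 0 < ε ∧ ∀ t : ℝ, |t| < ε → RealRooted (tt (A + t • w))) :
    cal (tt A) id = tt A := by
  have hRR : RealRooted (tt A) := by
    obtain ⟨ε, hε, h⟩ := hA 0
    have h1 := h 0 (by simpa using hε)
    simpa using h1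
  set a : LC 𝔤 := (1 : ℂ) ⊗ₜ[ℝ] A with ha
  have hTa : tt A = ad ℂ (LC 𝔤) a := tt_eq A
  obtain ⟨s, hs⟩ := exists_ad_eq_cal a (f := id) (fun _ _ => rfl)
  rw [← hTa] at hs
  set n := a - s with hn
  have hadn : ad ℂ (LC 𝔤) n = tt A - cal (tt A) id := by rw [hn, map_sub, hs, ← hTa]
  have hnil : IsNilpotent (ad ℂ (LC 𝔤) n) := by rw [hadn]; exact nil_part _
  have hcsT : Commute (cal (tt A) id) (tt A) := (commute_self_cal _ _).symm
  have hcsn : Commute (cal (tt A) id) (ad ℂ (LC 𝔤) n) := by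
    rw [hadn]; exact hcsT.sub_right (Commute.refl _)
  -- orthogonality to the centraliser of the semisimple part
  have key : ∀ w : 𝔤, ⁅s, (1 : ℂ) ⊗ₜ[ℝ] w⁆ = 0 →
      killingForm ℂ (LC 𝔤) n ((1 : ℂ) ⊗ₜ[ℝ] w) = 0 := by
    intro w hw
    obtain ⟨ε, hε, hRw⟩ := hA w
    set W := tt w with hW
    have hcsW : Commute (cal (tt A) id) W := by
      rw [← hs, hW, tt_eq]; exact commute_ad_of_lie hw
    set z := killingForm ℂ (LC 𝔤) n ((1 : ℂ) ⊗ₜ[ℝ] w) with hz
    have hzt : LinearMap.trace ℂ _ (ad ℂ (LC 𝔤) n * W) = z := by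
      rw [hz, killingForm_apply_apply, hW, tt_eq]; rfl
    set r := killingForm ℝ 𝔤 w w with hr
    have hrt : LinearMap.trace ℂ _ (W * W) = (r : ℂ) := by
      rw [hr, ← killing_one_tmul, killingForm_apply_apply, hW, tt_eq]; rfl
    have hquad : ∀ t : ℝ, |t| < ε → ∃ q : ℝ, 0 ≤ q ∧ 2 * (t : ℂ) * z + (t : ℂ) ^ 2 * r = q := by
      intro t ht
      have h1 := hRw t ht
      rw [tt_add, tt_smul] at h1
      set Y := ad ℂ (LC 𝔤) n + (t : ℂ) • W with hY
      have hYc : Commute (cal (tt A) id) Y := hcsn.add_right (hcsW.smul_right _)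
      have hsum : tt A + (t : ℂ) • W = cal (tt A) id + Y := by
        rw [hY, hadn]; abel
      have hYR : RealRooted Y := by
        intro ν hν
        obtain ⟨v, hv0, μ, hv1, hv2⟩ := exists_joint hYc hν
        obtain ⟨l, hl, hlμ⟩ := cal_eigen hv0 hv2
        have h2 : (tt A + (t : ℂ) • W) v = (μ + ν) • v := by
          rw [hsum, LinearMap.add_apply, hv1, hv2, add_smul]
        have h3 := h1 _ (gen_ne_bot hv0 h2)
        have h4 := hRR l hl
        have h5 : l = μ := hlμ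
        rw [h5] at h4
        rw [Complex.add_im, h4, zero_add] at h3
        exact h3
      obtain ⟨q, hq0, hq, -⟩ := trace_sq_real hYR
      refine ⟨q, hq0, ?_⟩
      rw [← hq]
      have e : Y * Y = ad ℂ (LC 𝔤) n * ad ℂ (LC 𝔤) n + ((t : ℂ) • (ad ℂ (LC 𝔤) n * W) +
          (t : ℂ) • (W * ad ℂ (LC 𝔤) n)) + ((t : ℂ) ^ 2) • (W * W) := by
        rw [hY, add_mul, mul_add, mul_add, smul_mul_assoc, mul_smul_comm, smul_mul_assoc,
          mul_smul_comm, smul_smul, pow_two]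
        abel
      rw [e, map_add, map_add, map_add, map_smul, map_smul, map_smul,
        LinearMap.trace_mul_comm ℂ W, hzt, hrt,
        trace_nil_mul hnil (Commute.refl _)]
      simp only [smul_eq_mul]
      ring
    -- real and imaginary parts
    have hre : ∀ t : ℝ, |t| < ε → 0 ≤ 2 * t * z.re + t ^ 2 * r ∧ 2 * t * z.im = 0 := by
      intro t ht
      obtain ⟨q, hq0, hq⟩ := hquad t ht
      have h1 := congrArg Complex.re hq
      have h2 := congrArg Complex.im hq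
      have e : 2 * (t : ℂ) * z + (t : ℂ) ^ 2 * r = ((2 * t : ℝ) : ℂ) * z + ((t ^ 2 * r : ℝ) : ℂ) := by
        push_cast; ring
      rw [e] at h1 h2
      rw [Complex.add_re, Complex.re_ofReal_mul, Complex.ofReal_re, Complex.ofReal_re] at h1
      rw [Complex.add_im, Complex.im_ofReal_mul, Complex.ofReal_im, Complex.ofReal_im,
        add_zero] at h2
      exact ⟨by rw [h1]; exact hq0, h2⟩
    have him : z.im = 0 := by
      have h1 := (hre (ε / 2) (by rw [abs_of_pos (by linarith)]; linarith)).2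
      have h2 : (2 * (ε / 2)) ≠ 0 := by positivity
      exact (mul_eq_zero.1 h1).resolve_left h2
    have hre0 : z.re = 0 := by
      by_contra hne
      set c := |z.re| with hc
      have hcpos : 0 < c := abs_pos.2 hne
      set δ := min (ε / 2) (c / (|r| + 1)) with hδ
      have hδpos : 0 < δ := lt_min (by linarith) (by positivity)
      have hδε : δ < ε := lt_of_le_of_lt (min_le_left _ _) (by linarith)
      have h1 := (hre δ (by rwa [abs_of_pos hδpos])).1
      have h2 := (hre (-δ) (by rwa [abs_neg, abs_of_pos hδpos])).1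
      have h3 : δ * (|r| + 1) ≤ c := by
        have := min_le_right (ε / 2) (c / (|r| + 1))
        rw [← hδ, le_div_iff₀ (by positivity)] at this
        exact this
      have h4 : r ≤ |r| := le_abs_self r
      have h5 : δ * r ≤ c := by nlinarith
      rcases abs_cases z.re with ⟨h6, h7⟩ | ⟨h6, h7⟩
      · have h8 : 0 ≤ δ * (-(2 * c) + δ * r) := by rw [hc, h6]; nlinarith
        have h9 : 0 ≤ -(2 * c) + δ * r := nonneg_of_mul_nonneg_right h8 hδpos
        linarith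
      · have h8 : 0 ≤ δ * (-(2 * c) + δ * r) := by rw [hc, h6]; nlinarith
        have h9 : 0 ≤ -(2 * c) + δ * r := nonneg_of_mul_nonneg_right h8 hδpos
        linarith
    exact Complex.ext hre0 him
  have hn0 : n = 0 := by
    apply killing_real_zero
    intro y
    obtain ⟨w, h1, z, h3⟩ := decomp A y hs
    have h5 : ⁅n, s⁆ = 0 := by
      apply ad_inj
      rw [ad_lie_eq, hs, hcsn.eq, sub_self]
    rw [h3, map_add, key w h1, zero_add]
    have h6 : killingForm ℂ (LC 𝔤) n ⁅s, z⁆ = killingForm ℂ (LC 𝔤) ⁅n, s⁆ z :=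
      (LieModule.traceForm_apply_lie_apply ℂ (LC 𝔤) (LC 𝔤) n s _).symm
    rw [h6, h5, map_zero, LinearMap.zero_apply]
  rw [hn0, map_zero] at hadn
  exact (sub_eq_zero.1 hadn.symm).symm

lemma killing_tt (u w : 𝔤) : LinearMap.trace ℂ (LC 𝔤) (tt u * tt w) =
    ((killingForm ℝ 𝔤 u w : ℝ) : ℂ) := by
  rw [← killing_one_tmul, killingForm_apply_apply, tt_eq, tt_eq]; rfl

lemma tt_commute {u w : 𝔤} (h : ⁅u, w⁆ = 0) : Commute (tt u) (tt w) := by
  rw [tt_eq, tt_eq]
  apply commute_ad_of_lie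
  rw [LieAlgebra.ExtendScalars.bracket_tmul, h, TensorProduct.tmul_zero]

section cone

variable {A : 𝔤}
  (hA : ∀ w : 𝔤, ∃ ε : ℝ, 0 < ε ∧ ∀ t : ℝ, |t| < ε → RealRooted (tt (A + t • w)))

include hA

lemma realRooted_self : RealRooted (tt A) := by
  obtain ⟨ε, hε, h⟩ := hA 0
  have h1 := h 0 (by simpa using hε)
  simpa using h1

lemma realRooted_centr {u : 𝔤} (hu : ⁅A, u⁆ = 0) : RealRooted (tt u) := by
  intro ν hν
  obtain ⟨ε, hε, h⟩ := hA u
  obtain ⟨v, hv0, μ, hv1, hv2⟩ := exists_joint (tt_commute hu) hν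
  have h1 := h (ε / 2) (by rw [abs_of_pos (by linarith)]; linarith)
  rw [tt_add, tt_smul] at h1
  have h2 : (tt A + ((ε / 2 : ℝ) : ℂ) • tt u) v = (μ + ((ε / 2 : ℝ) : ℂ) * ν) • v := by
    rw [LinearMap.add_apply, LinearMap.smul_apply, hv1, hv2, add_smul, mul_smul]
  have h3 := h1 _ (gen_ne_bot hv0 h2)
  have h4 := realRooted_self hA μ (gen_ne_bot hv0 hv2)
  rw [Complex.add_im, h4, zero_add, Complex.im_ofReal_mul] at h3
  exact (mul_eq_zero.1 h3).resolve_left (by positivity)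

lemma killing_nonneg {u : 𝔤} (hu : ⁅A, u⁆ = 0) : 0 ≤ killingForm ℝ 𝔤 u u := by
  obtain ⟨r, hr, h1, -⟩ := trace_sq_real (realRooted_centr hA hu)
  rw [killing_tt] at h1
  have h2 : killingForm ℝ 𝔤 u u = r := by exact_mod_cast h1
  rw [h2]; exact hr

lemma killing_def {u : 𝔤} (hu : ⁅A, u⁆ = 0) (h0 : killingForm ℝ 𝔤 u u = 0) : u = 0 := by
  have hs : ad ℂ (LC 𝔤) ((1 : ℂ) ⊗ₜ[ℝ] A) = cal (tt A) id := by
    rw [semisimple_of_cone hA, tt_eq]
  have key : ∀ w : 𝔤, ⁅A, w⁆ = 0 → killingForm ℝ 𝔤 u w = 0 := by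
    intro w hw
    have h1 : ∀ t : ℝ, 0 ≤ 2 * t * killingForm ℝ 𝔤 u w + t ^ 2 * killingForm ℝ 𝔤 w w := by
      intro t
      have h2 : ⁅A, u + t • w⁆ = 0 := by rw [lie_add, lie_smul, hu, hw]; simp
      have h3 := killing_nonneg hA h2
      have e1 : killingForm ℝ 𝔤 w u = killingForm ℝ 𝔤 u w := LieModule.traceForm_comm ℝ 𝔤 𝔤 w u
      have e : killingForm ℝ 𝔤 (u + t • w) (u + t • w) =
          2 * t * killingForm ℝ 𝔤 u w + t ^ 2 * killingForm ℝ 𝔤 w w := by
        simp only [map_add, map_smul, LinearMap.add_apply, LinearMap.smul_apply, smul_eq_mul]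
        rw [e1, h0]; ring
      rw [e] at h3; exact h3
    by_contra hne
    set c := killingForm ℝ 𝔤 u w with hc
    set r := killingForm ℝ 𝔤 w w with hr
    have hr0 : 0 ≤ r := killing_nonneg hA hw
    have h2 := h1 (-(c / (r + 1)))
    have h3 : 2 * (-(c / (r + 1))) * c + (-(c / (r + 1))) ^ 2 * r =
        c ^ 2 / (r + 1) * (-2 + r / (r + 1)) := by
      field_simp
    rw [h3] at h2
    have h4 : 0 < c ^ 2 / (r + 1) := by positivity
    have h5 : r / (r + 1) < 1 := by rw [div_lt_one (by linarith)]; linarith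
    nlinarith
  apply killing_zero
  intro y
  obtain ⟨w, h1, z, h3⟩ := decomp A y hs
  have h4 : ⁅A, w⁆ = 0 := by
    apply one_tmul_inj
    rw [LieAlgebra.ExtendScalars.bracket_tmul] at h1
    rw [TensorProduct.tmul_zero]
    simpa using h1
  have h5 : killingForm ℂ (LC 𝔤) ((1 : ℂ) ⊗ₜ[ℝ] u) ((1 : ℂ) ⊗ₜ[ℝ] y) =
      killingForm ℂ (LC 𝔤) ((1 : ℂ) ⊗ₜ[ℝ] u) ((1 : ℂ) ⊗ₜ[ℝ] w) := by
    rw [h3, map_add]
    have h6 : killingForm ℂ (LC 𝔤) ((1 : ℂ) ⊗ₜ[ℝ] u) ⁅(1 : ℂ) ⊗ₜ[ℝ] A, z⁆ =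
        killingForm ℂ (LC 𝔤) ⁅(1 : ℂ) ⊗ₜ[ℝ] u, (1 : ℂ) ⊗ₜ[ℝ] A⁆ z :=
      (LieModule.traceForm_apply_lie_apply ℂ (LC 𝔤) (LC 𝔤) _ _ _).symm
    have h7 : ⁅(1 : ℂ) ⊗ₜ[ℝ] u, (1 : ℂ) ⊗ₜ[ℝ] A⁆ = (0 : LC 𝔤) := by
      rw [LieAlgebra.ExtendScalars.bracket_tmul, ← lie_skew, hu]
      simp
    rw [h6, h7, map_zero, LinearMap.zero_apply, add_zero]
  rw [killing_one_tmul, killing_one_tmul] at h5
  have h6 : killingForm ℝ 𝔤 u y = killingForm ℝ 𝔤 u w := by exact_mod_cast h5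
  rw [h6]
  exact key w h4

/-- there are no eigenvectors of `ad u` with nonzero eigenvalue in the centraliser -/
lemma eigen_zero {u e : 𝔤} {ν : ℝ} (hν : ν ≠ 0) (he : ⁅A, e⁆ = 0) (h : ⁅u, e⁆ = ν • e) : e = 0 := by
  apply killing_def hA he
  have h1 : killingForm ℝ 𝔤 ⁅u, e⁆ e = killingForm ℝ 𝔤 u ⁅e, e⁆ :=
    LieModule.traceForm_apply_lie_apply ℝ 𝔤 𝔤 u e e
  rw [lie_self, map_zero, h, map_smul, LinearMap.smul_apply, smul_eq_mul] at h1
  exact (mul_eq_zero.1 h1).resolve_left hν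

lemma eigen_zero_complex {u : 𝔤} (hu : ⁅A, u⁆ = 0) {v : LC 𝔤} {ν : ℂ} (hν : ν ≠ 0)
    (hv : tt A v = 0) (h : tt u v = ν • v) : v = 0 := by
  by_contra hv0
  have him : ν.im = 0 := realRooted_centr hA hu ν (gen_ne_bot hv0 h)
  have hνr : ν = (ν.re : ℂ) := Complex.ext rfl (by simpa using him)
  have hre : ν.re ≠ 0 := by
    intro h0
    apply hν
    rw [hνr, h0]; simp
  have hsv : tt u (sig v) = ν • sig v := by
    rw [← sig_baseChange, h, sig_smul, hνr, Complex.conj_ofReal]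
  have hsA : tt A (sig v) = 0 := by rw [← sig_baseChange, hv, map_zero]
  -- real vectors
  have hreal : ∀ c : LC 𝔤, sig c = c → tt A c = 0 → tt u c = ν • c → c = 0 := by
    intro c h1 h2 h3
    obtain ⟨x, rfl⟩ := real_of_sig h1
    have h4 : ⁅A, x⁆ = 0 := by
      apply one_tmul_inj
      rw [TensorProduct.tmul_zero]
      simpa using h2
    have h5 : ⁅u, x⁆ = ν.re • x := by
      apply one_tmul_inj
      have e1 : tt u ((1 : ℂ) ⊗ₜ[ℝ] x) = (1 : ℂ) ⊗ₜ[ℝ] ⁅u, x⁆ := by simp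
      rw [← e1, h3, TensorProduct.tmul_smul]
      conv_lhs => rw [hνr]
      rfl
    rw [eigen_zero hA hre h4 h5, TensorProduct.tmul_zero]
  have h1 : v + sig v = 0 := by
    apply hreal
    · rw [map_add, sig_sig, add_comm]
    · rw [map_add, hv, hsA, add_zero]
    · rw [map_add, h, hsv, smul_add]
  have h2 : Complex.I • (v - sig v) = 0 := by
    apply hreal
    · rw [sig_smul, map_sub, sig_sig, Complex.conj_I, neg_smul, ← smul_neg, neg_sub]
    · rw [map_smul, map_sub, hv, hsA, sub_zero, smul_zero]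
    · rw [map_smul, map_sub, h, hsv, ← smul_sub, smul_comm]
  have h3 := (smul_eq_zero.1 h2).resolve_left Complex.I_ne_zero
  have h4 : (2 : ℂ) • v = 0 := by
    have : (2 : ℂ) • v = (v + sig v) + (v - sig v) := by rw [two_smul]; abel
    rw [this, h1, h3, add_zero]
  exact hv0 ((smul_eq_zero.1 h4).resolve_left two_ne_zero)

lemma nilpotent_on_centr {u w : 𝔤} (hu : ⁅A, u⁆ = 0) (hw : ⁅A, w⁆ = 0) :
    ∃ k : ℕ, ((ad ℝ 𝔤 u) ^ k) w = 0 := by
  set U := tt u with hU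
  set Q : End ℂ (LC 𝔤) := cal U (fun l => if l = 0 then 0 else 1) with hQ
  have hQid : IsIdempotentElem Q := cal_idem U (fun l => by by_cases h : l = 0 <;> simp [h])
  have hUQ : Commute U Q := commute_self_cal U _
  have hAU : Commute (tt A) U := tt_commute hu
  have hAQ : Commute (tt A) Q := cal_commute hAU _
  set c : LC 𝔤 := (1 : ℂ) ⊗ₜ[ℝ] w with hc
  have hAc : tt A c = 0 := by
    rw [hc, LinearMap.baseChange_tmul, ad_apply, hw, TensorProduct.tmul_zero]
  have hQc : Q c = 0 := by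
    by_contra hne
    let D : Submodule ℂ (LC 𝔤) := LinearMap.range Q ⊓ LinearMap.ker (tt A)
    have hmap : ∀ x ∈ D, U x ∈ D := by
      rintro x ⟨⟨y, hy⟩, hx⟩
      refine ⟨⟨U y, ?_⟩, ?_⟩
      · have h1 : Q (U y) = U (Q y) := (LinearMap.congr_fun hUQ.eq y).symm
        rw [h1, hy]
      · rw [SetLike.mem_coe, LinearMap.mem_ker] at hx ⊢
        have h1 : tt A (U x) = U (tt A x) := LinearMap.congr_fun hAU.eq x
        rw [h1, hx, map_zero]
    have hcD : Q c ∈ D := by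
      refine ⟨⟨c, rfl⟩, ?_⟩
      rw [SetLike.mem_coe, LinearMap.mem_ker]
      have h1 : tt A (Q c) = Q (tt A c) := LinearMap.congr_fun hAQ.eq c
      rw [h1, hAc, map_zero]
    have hnt : Nontrivial D := ⟨⟨⟨Q c, hcD⟩, 0, fun h0 => hne (congrArg Subtype.val h0)⟩⟩
    obtain ⟨ν, hν⟩ := Module.End.exists_eigenvalue (U.restrict hmap)
    obtain ⟨v, hv⟩ := hν.exists_hasEigenvector
    have hv0 : (v : LC 𝔤) ≠ 0 := fun h0 => hv.2 (Subtype.ext h0)
    have hv1 : U (v : LC 𝔤) = ν • (v : LC 𝔤) := congrArg Subtype.val hv.apply_eq_smul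
    have hvA : tt A (v : LC 𝔤) = 0 := LinearMap.mem_ker.1 v.2.2
    obtain ⟨y, hy⟩ := v.2.1
    have hvQ : Q (v : LC 𝔤) = v := by
      rw [← hy]
      exact LinearMap.congr_fun hQid y
    by_cases hν0 : ν = 0
    · rw [hν0, zero_smul] at hv1
      have h1 : (v : LC 𝔤) ∈ U.maxGenEigenspace 0 := by
        rw [Module.End.mem_maxGenEigenspace]
        exact ⟨1, by simp [hv1]⟩
      rw [hQ, cal_apply U _ h1] at hvQ
      simp only [if_true, zero_smul] at hvQ
      exact hv0 hvQ.symm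
    · exact hv0 (eigen_zero_complex hA hu hν0 hvA hv1)
  have h1 : c ∈ U.maxGenEigenspace 0 := by
    have h2 : cal U (fun l => if l = 0 then 1 else 0) c = c := by
      have e : cal U (fun l => if l = 0 then (1:ℂ) else 0) + Q = 1 := by
        refine ext_gen U fun l v hv => ?_
        rw [LinearMap.add_apply, hQ, cal_apply _ _ hv, cal_apply _ _ hv, ← add_smul,
          Module.End.one_apply]
        by_cases hl : l = 0 <;> simp [hl]
      have h3 := LinearMap.congr_fun e c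
      rw [LinearMap.add_apply, hQc, add_zero, Module.End.one_apply] at h3
      exact h3
    rw [← h2]
    refine gen_induction U (p := fun v => cal U (fun l => if l = 0 then (1:ℂ) else 0) v ∈
      U.maxGenEigenspace 0) (by simp) ?_ ?_ c
    · intro v v' hv hv'
      rw [map_add]
      exact Submodule.add_mem _ hv hv'
    · intro l v hv
      rw [cal_apply U _ hv]
      by_cases hl : l = 0
      · rw [if_pos hl, one_smul, ← hl]; exact hv
      · rw [if_neg hl, zero_smul]; exact Submodule.zero_mem _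
  rw [Module.End.mem_maxGenEigenspace] at h1
  obtain ⟨k, hk⟩ := h1
  refine ⟨k, ?_⟩
  rw [zero_smul, sub_zero] at hk
  apply one_tmul_inj
  rw [TensorProduct.tmul_zero, ← hk]
  have h3 : ∀ (k : ℕ) (x : 𝔤), (1 : ℂ) ⊗ₜ[ℝ] (((ad ℝ 𝔤 u) ^ k) x) = (U ^ k) ((1 : ℂ) ⊗ₜ[ℝ] x) := by
    intro k
    induction k with
    | zero => intro x; rfl
    | succ k ih =>
      intro x
      rw [pow_succ, pow_succ, Module.End.mul_apply, Module.End.mul_apply, ih, hU,
        LinearMap.baseChange_tmul]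
  exact h3 k w

/-- the centraliser is abelian -/
theorem centr_abelian {u w : 𝔤} (hu : ⁅A, u⁆ = 0) (hw : ⁅A, w⁆ = 0) : ⁅u, w⁆ = 0 := by
  classical
  have hex := nilpotent_on_centr hA hu hw
  set k := Nat.find hex with hk
  have hk0 : ((ad ℝ 𝔤 u) ^ k) w = 0 := Nat.find_spec hex
  have hskew : ∀ (j : ℕ) (x y : 𝔤), killingForm ℝ 𝔤 (((ad ℝ 𝔤 u) ^ j) x) y =
      (-1) ^ j * killingForm ℝ 𝔤 x (((ad ℝ 𝔤 u) ^ j) y) := by
    intro j
    induction j with
    | zero => intro x y; simp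
    | succ j ih =>
      intro x y
      have h1 : killingForm ℝ 𝔤 ⁅u, ((ad ℝ 𝔤 u) ^ j) x⁆ y =
          - killingForm ℝ 𝔤 (((ad ℝ 𝔤 u) ^ j) x) ⁅u, y⁆ := by
        rw [← lie_skew, map_neg, LinearMap.neg_apply]
        congr 1
        exact LieModule.traceForm_apply_lie_apply ℝ 𝔤 𝔤 _ u y
      have h2 : ((ad ℝ 𝔤 u) ^ (j + 1)) x = ⁅u, ((ad ℝ 𝔤 u) ^ j) x⁆ := by
        rw [pow_succ', Module.End.mul_apply, ad_apply]
      have h3 : ((ad ℝ 𝔤 u) ^ (j + 1)) y = ((ad ℝ 𝔤 u) ^ j) ⁅u, y⁆ := by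
        rw [pow_succ, Module.End.mul_apply, ad_apply]
      rw [h2, h3, h1, ih, pow_succ]
      ring
  have hcen : ∀ j : ℕ, ⁅A, ((ad ℝ 𝔤 u) ^ j) w⁆ = 0 := by
    intro j
    induction j with
    | zero => exact hw
    | succ j ih =>
      rw [pow_succ', Module.End.mul_apply, ad_apply, leibniz_lie, hu, ih]
      simp
  by_cases hk1 : k ≤ 1
  · rcases Nat.le_one_iff_eq_zero_or_eq_one.1 hk1 with h0 | h0
    · rw [h0, pow_zero, Module.End.one_apply] at hk0
      rw [hk0, lie_zero]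
    · rw [h0, pow_one, ad_apply] at hk0
      exact hk0
  · exfalso
    push Not at hk1
    have h1 : ((ad ℝ 𝔤 u) ^ (k - 1)) w = 0 := by
      apply killing_def hA (hcen _)
      rw [hskew, ← Module.End.mul_apply, ← pow_add]
      have e : k - 1 + (k - 1) = (k - 2) + k := by omega
      rw [e, pow_add, Module.End.mul_apply, hk0, map_zero, map_zero, mul_zero]
    have := Nat.find_min' hex h1
    omega

end cone

end killing

end Pool.Agent.K4H32.WD
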