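import Mathlib
import Pool.Agent.K4H32.W.Pert
import Pool.Agent.K4H32.WD.Jor

/-! The sum of the positive real parts of the eigenvalues of an endomorphism. -/

open Module Module.End LieAlgebra Filter
open scoped TensorProduct ComplexConjugate Topology

noncomputable section

set_option linter.unusedSectionVars false

namespace Pool.Agent.K4H32.WD

open Pool.Agent.K4H32.W

variable {V : Type*} [AddCommGroup V] [Module ℂ V] [FiniteDimensional ℂ V]

/-- indicator function of the right half plane -/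
def indR (l : ℂ) : ℂ := if 0 < l.re then 1 else 0

lemma indR_idem (l : ℂ) : indR l * indR l = indR l := by
  unfold indR; split_ifs <;> simp

/-- the sum of the positive real parts of the eigenvalues -/
def sg (T : End ℂ V) : ℝ := (LinearMap.trace ℂ V (T * cal T indR)).re

lemma mem_gen_smul {T : End ℂ V} {l : ℂ} {v : V} (c : ℂ) (hv : v ∈ T.maxGenEigenspace l) :
    v ∈ (c • T).maxGenEigenspace (c * l) := by
  rw [Module.End.mem_maxGenEigenspace] at hv ⊢
  obtain ⟨k, hk⟩ := hv
  refine ⟨k, ?_⟩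
  have e : c • T - (c * l) • (1 : End ℂ V) = c • (T - l • 1) := by
    rw [smul_sub, smul_smul]
  rw [e, smul_pow, LinearMap.smul_apply, hk, smul_zero]

lemma cal_smul (T : End ℂ V) (c : ℂ) (f : ℂ → ℂ) :
    cal (c • T) f = cal T (fun l => f (c * l)) := by
  refine ext_gen T fun l v hv => ?_
  rw [cal_apply _ _ hv, cal_apply _ _ (mem_gen_smul c hv)]

lemma re_trace_le (T U : End ℂ V) (hU : IsIdempotentElem U) (hinv : (1 - U) * T * U = 0) :
    (LinearMap.trace ℂ V (T * U)).re ≤ sg T := by
  have h1 := im_trace_le (Complex.I • T) U hU (by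
    rw [mul_smul_comm, smul_mul_assoc, hinv, smul_zero])
  rw [cal_smul] at h1
  have e : (fun l => indP (Complex.I * l)) = indR := by
    ext l
    unfold indP indR
    simp
  rw [e, smul_mul_assoc, smul_mul_assoc, map_smul, map_smul, smul_eq_mul, smul_eq_mul,
    Complex.I_mul_im, Complex.I_mul_im] at h1
  exact h1

lemma sg_inv (T : End ℂ V) : (1 - cal T indR) * T * cal T indR = 0 := by
  have h1 := cal_idem T indR_idem
  have h2 : Commute T (cal T indR) := commute_self_cal T indR
  rw [mul_assoc, h2.eq, ← mul_assoc, sub_mul, one_mul, h1, sub_self, zero_mul]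

lemma sg_le_of_conj {T T' : End ℂ V} (φ : V ≃ₗ[ℂ] V) (h : ∀ v, T' (φ v) = φ (T v)) :
    sg T ≤ sg T' := by
  let ψ : End ℂ V ≃ₐ[ℂ] End ℂ V := φ.conjAlgEquiv ℂ
  have hψ : ∀ A : End ℂ V, ψ A = φ.conj A := fun A => rfl
  have hψT : ψ T = T' := by
    rw [hψ]
    ext v
    rw [LinearEquiv.conj_apply_apply, ← h, LinearEquiv.apply_symm_apply]
  have h1 : IsIdempotentElem (ψ (cal T indR)) := by
    have := cal_idem T indR_idem
    unfold IsIdempotentElem at this ⊢
    rw [← map_mul, this]
  have h2 : (1 - ψ (cal T indR)) * T' * ψ (cal T indR) = 0 := by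
    have := congrArg ψ (sg_inv T)
    rw [map_mul, map_mul, map_sub, map_one, map_zero, hψT] at this
    exact this
  have h3 := re_trace_le T' _ h1 h2
  rw [← hψT, ← map_mul, hψ, LinearMap.trace_conj' _ φ] at h3
  rw [← hψT, hψ]
  exact h3

lemma sg_conj {T T' : End ℂ V} (φ : V ≃ₗ[ℂ] V) (h : ∀ v, T' (φ v) = φ (T v)) : sg T = sg T' := by
  refine le_antisymm (sg_le_of_conj φ h) (sg_le_of_conj φ.symm fun v => ?_)
  rw [LinearEquiv.eq_symm_apply, ← h, LinearEquiv.apply_symm_apply]

lemma sg_smul {T : End ℂ V} {s : ℝ} (hs : 0 < s) : sg ((s : ℂ) • T) = s * sg T := by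
  unfold sg
  rw [cal_smul]
  have e : (fun l => indR ((s : ℂ) * l)) = indR := by
    ext l
    unfold indR
    have : (0 < ((s : ℂ) * l).re) ↔ 0 < l.re := by
      rw [Complex.re_ofReal_mul]
      exact mul_pos_iff_of_pos_left hs
    simp only [this]
  rw [e, smul_mul_assoc, map_smul, smul_eq_mul, Complex.re_ofReal_mul]

lemma lsc_aux {𝔸 : Type*} [NormedRing 𝔸] [NormedAlgebra ℂ 𝔸] [FiniteDimensional ℂ 𝔸]
    (Θ : End ℂ V ≃ₐ[ℂ] 𝔸) {X : Type*} [TopologicalSpace X] (T : X → End ℂ V)
    (hc : Continuous fun x => Θ (T x)) {x₀ : X} {c : ℝ} (hlt : c < sg (T x₀)) :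
    ∀ᶠ x in 𝓝 x₀, c < sg (T x) := by
  set L : X → 𝔸 := fun x => Θ (T x) with hL
  let τ : 𝔸 →L[ℂ] ℂ := LinearMap.toContinuousLinearMap
    ((LinearMap.trace ℂ V) ∘ₗ Θ.symm.toLinearMap)
  have hτ : ∀ A, τ A = LinearMap.trace ℂ V (Θ.symm A) := fun A => rfl
  set Q := cal (T x₀) indR with hQ
  have hP : Θ Q * Θ Q = Θ Q := by
    rw [← map_mul, cal_idem (T x₀) indR_idem]
  have hcom : ∀ Y : 𝔸, L x₀ * Y = Y * L x₀ → Θ Q * Y = Y * Θ Q := by
    intro Y hY
    have h1 : Commute (Θ.symm Y) (T x₀) := by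
      apply Θ.injective
      rw [map_mul, map_mul, Θ.apply_symm_apply]
      exact hY.symm
    have h2 := cal_commute h1 indR
    have h3 := congrArg Θ h2.eq
    rw [map_mul, map_mul, Θ.apply_symm_apply] at h3
    exact h3.symm
  obtain ⟨C, hC⟩ := perturb τ (fun x y => by
    rw [hτ, hτ, map_mul Θ.symm, map_mul Θ.symm, LinearMap.trace_mul_comm]) hP hcom
  have hC2 := (hc.tendsto x₀).eventually hC
  -- the comparison function
  let g : X → ℝ := fun x => (τ (L x * Θ Q)).re - C * ‖L x - L x₀‖ ^ 2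
  have hg : Continuous g := by
    have h1 : Continuous fun x => τ (L x * Θ Q) := τ.continuous.comp (hc.mul continuous_const)
    exact (Complex.continuous_re.comp h1).sub
      (continuous_const.mul ((hc.sub continuous_const).norm.pow 2))
  have hg0 : g x₀ = sg (T x₀) := by
    simp only [g, sub_self, norm_zero, ne_eq, OfNat.ofNat_ne_zero, not_false_eq_true, zero_pow,
      mul_zero, sub_zero]
    rw [hτ, map_mul Θ.symm, hL, Θ.symm_apply_apply, Θ.symm_apply_apply]
    rfl
  have hg1 : ∀ᶠ x in 𝓝 x₀, c < g x := hg.continuousAt.eventually_const_lt (by rw [hg0]; exact hlt)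
  filter_upwards [hC2, hg1] with x hx hgx
  obtain ⟨U, hU1, hU2, hU3⟩ := hx
  have h1 : (LinearMap.trace ℂ V (T x * Θ.symm U)).re ≤ sg (T x) := by
    apply re_trace_le
    · show Θ.symm U * Θ.symm U = Θ.symm U
      rw [← map_mul, hU1]
    · have := congrArg Θ.symm hU2
      rw [map_mul, map_mul, map_sub, map_one, map_zero] at this
      simpa [hL] using this
  have e0 : ∀ W : 𝔸, τ (L x * W) = LinearMap.trace ℂ V (T x * Θ.symm W) := by
    intro W
    rw [hτ, map_mul Θ.symm]
    simp [hL]
  have h3 := (Complex.abs_re_le_norm _).trans hU3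
  rw [Complex.sub_re] at h3
  have h4 := (abs_le.1 h3).1
  rw [e0 U] at h4
  refine hgx.trans_le ?_
  show (τ (L x * Θ Q)).re - C * ‖L x - L x₀‖ ^ 2 ≤ sg (T x)
  linarith

/-- lower semicontinuity -/
theorem sg_lsc {X : Type*} [TopologicalSpace X] {ι : Type*} [Fintype ι] (h : ι → X → ℝ)
    (hcont : ∀ i, Continuous (h i)) (N : ι → End ℂ V) (T : X → End ℂ V)
    (hT : ∀ x, T x = ∑ i, (h i x : ℂ) • N i) {x₀ : X} {c : ℝ} (hlt : c < sg (T x₀)) :
    ∀ᶠ x in 𝓝 x₀, c < sg (T x) := by
  let ph : V ≃ₗ[ℂ] EuclideanSpace ℂ (Fin (finrank ℂ V)) :=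
    (Module.finBasis ℂ V).equivFun.trans
      (WithLp.linearEquiv 2 ℂ (Fin (finrank ℂ V) → ℂ)).symm
  let Θ := (ph.conjAlgEquiv ℂ).trans (Module.End.toContinuousLinearMap _)
  refine lsc_aux Θ T ?_ hlt
  have : (fun x => Θ (T x)) = fun x => ∑ i, (h i x : ℂ) • Θ (N i) := by
    ext1 x
    rw [hT, map_sum]
    exact Finset.sum_congr rfl fun i _ => map_smul Θ _ _
  rw [this]
  apply continuous_finsetSum
  intro i _
  exact (Complex.continuous_ofReal.comp (hcont i)).smul continuous_const

lemma mem_gen_add {T W : End ℂ V} (h : Commute T W) {μ ν : ℂ} {v : V}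
    (h1 : v ∈ T.maxGenEigenspace μ) (h2 : v ∈ W.maxGenEigenspace ν) :
    v ∈ (T + W).maxGenEigenspace (μ + ν) := by
  rw [Module.End.mem_maxGenEigenspace] at h1 h2 ⊢
  obtain ⟨a, ha⟩ := h1
  obtain ⟨b, hb⟩ := h2
  refine ⟨a + b, ?_⟩
  have e : T + W - (μ + ν) • (1 : End ℂ V) = (T - μ • 1) + (W - ν • 1) := by
    rw [add_smul]; abel
  have hc : Commute (T - μ • (1 : End ℂ V)) (W - ν • 1) := by
    have h3 : ∀ (c : ℂ) (Y : End ℂ V), Commute (c • (1 : End ℂ V)) Y := fun c Y =>
      (Commute.one_left Y).smul_left c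
    exact (h.sub_left (h3 μ W)).sub_right ((h3 ν _).symm)
  rw [e, hc.add_pow, LinearMap.sum_apply]
  apply Finset.sum_eq_zero
  intro m hm
  rw [Finset.mem_range] at hm
  by_cases hma : a ≤ m
  · obtain ⟨j, rfl⟩ := Nat.exists_eq_add_of_le hma
    have e2 : (T - μ • (1 : End ℂ V)) ^ (a + j) * (W - ν • 1) ^ (a + b - (a + j)) *
        (((a + b).choose (a + j) : ℕ) : End ℂ V) =
        ((((a + b).choose (a + j) : ℕ) : End ℂ V) * (W - ν • 1) ^ (a + b - (a + j)) *
          (T - μ • 1) ^ j) * (T - μ • 1) ^ a := by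
      rw [← Nat.cast_comm, mul_assoc (((a + b).choose (a + j) : ℕ) : End ℂ V),
        mul_assoc (((a + b).choose (a + j) : ℕ) : End ℂ V)]
      congr 1
      rw [mul_assoc, ← pow_add, add_comm j a]
      exact (hc.pow_pow _ _).eq
    rw [e2, Module.End.mul_apply, ha, map_zero]
  · push Not at hma
    have h3 : a + b - m = (a - m) + b := by omega
    have e2 : (T - μ • (1 : End ℂ V)) ^ m * (W - ν • 1) ^ (a + b - m) *
        (((a + b).choose m : ℕ) : End ℂ V) =
        ((((a + b).choose m : ℕ) : End ℂ V) * (T - μ • 1) ^ m * (W - ν • 1) ^ (a - m)) *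
          (W - ν • 1) ^ b := by
      rw [← Nat.cast_comm, h3, pow_add]
      noncomm_ring
    rw [e2, Module.End.mul_apply, hb, map_zero]

/-- commuting perturbations which vanish on the kernel do not change the positive projection -/
theorem cal_perturb {T W : End ℂ V} (hc : Commute T W) (hss : cal T id = T)
    (hR : RealRooted T) (hk : ∀ v, T v = 0 → W v = 0) :
    ∃ δ : ℝ, 0 < δ ∧ ∀ t : ℝ, |t| < δ → cal (T + (t : ℂ) • W) indR = cal T indR := by
  classical
  -- a bound for the eigenvalues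
  obtain ⟨δ, hδ, hδ2⟩ : ∃ δ : ℝ, 0 < δ ∧ ∀ μ ∈ (finite_gen T).toFinset, μ ≠ 0 →
      ∀ ν ∈ (finite_gen W).toFinset, δ * |ν.re| < |μ.re| := by
    have h1 : ∀ (s r : Finset ℂ), (∀ μ ∈ s, μ ≠ 0 → μ.re ≠ 0) → ∃ δ : ℝ, 0 < δ ∧
        ∀ μ ∈ s, μ ≠ 0 → ∀ ν ∈ r, δ * |ν.re| < |μ.re| := by
      intro s r hs
      obtain ⟨m, hm, hm2⟩ : ∃ m : ℝ, 0 < m ∧ ∀ μ ∈ s, μ ≠ 0 → m ≤ |μ.re| := by
        induction s using Finset.induction_on with
        | empty => exact ⟨1, one_pos, by simp⟩
        | insert a s ha ih =>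
          obtain ⟨m, hm, hm2⟩ := ih (fun μ h => hs μ (Finset.mem_insert_of_mem h))
          by_cases ha0 : a = 0
          · refine ⟨m, hm, fun μ h hμ => ?_⟩
            rcases Finset.mem_insert.1 h with h | h
            · exact absurd (h.trans ha0) hμ
            · exact hm2 μ h hμ
          · refine ⟨min m |a.re|, lt_min hm (abs_pos.2 (hs a (Finset.mem_insert_self _ _) ha0)),
              fun μ h hμ => ?_⟩
            rcases Finset.mem_insert.1 h with h | h
            · rw [h]; exact min_le_right _ _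
            · exact (min_le_left _ _).trans (hm2 μ h hμ)
      set S := ∑ ν ∈ r, |ν.re| with hS
      have hS0 : 0 ≤ S := Finset.sum_nonneg fun _ _ => abs_nonneg _
      refine ⟨m / (S + 1), by positivity, fun μ h hμ ν hν => ?_⟩
      have h2 : |ν.re| ≤ S := Finset.single_le_sum (f := fun ν : ℂ => |ν.re|)
        (fun _ _ => abs_nonneg _) hν
      calc m / (S + 1) * |ν.re| ≤ m / (S + 1) * S := by gcongr
        _ < m := by
          rw [div_mul_eq_mul_div, div_lt_iff₀ (by linarith)]
          nlinarith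
        _ ≤ |μ.re| := hm2 μ h hμ
    apply h1
    intro μ hμ hμ0 hre
    apply hμ0
    exact Complex.ext hre (hR μ (by simpa using hμ))
  refine ⟨δ, hδ, fun t ht => ?_⟩
  -- the projection to one generalised eigenspace of `T`
  refine ext_gen T fun μ v hv => ?_
  rw [cal_apply T _ hv]
  set Rμ : End ℂ V := cal T (fun l => if l = μ then 1 else 0) with hRμ
  have hRv : Rμ v = v := by rw [hRμ, cal_apply T _ hv, if_pos rfl, one_smul]
  have hRmem : ∀ w, Rμ w ∈ T.maxGenEigenspace μ := by
    intro w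
    refine gen_induction T (p := fun w => Rμ w ∈ T.maxGenEigenspace μ) (by simp) ?_ ?_ w
    · intro a b ha hb
      rw [map_add]; exact Submodule.add_mem _ ha hb
    · intro l a ha
      rw [hRμ, cal_apply T _ ha]
      by_cases hl : l = μ
      · rw [if_pos hl, one_smul, ← hl]; exact ha
      · rw [if_neg hl, zero_smul]; exact Submodule.zero_mem _
  have hWR : Commute W Rμ := cal_commute hc.symm _
  have key : cal (T + (t : ℂ) • W) indR * Rμ = indR μ • Rμ := by
    refine ext_gen W fun ν w hw => ?_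
    rw [Module.End.mul_apply, LinearMap.smul_apply]
    have h1 : Rμ w ∈ W.maxGenEigenspace ν := mapsTo_maxGenEigenspace_of_comm hWR ν hw
    have h2 : Rμ w ∈ (T + (t : ℂ) • W).maxGenEigenspace (μ + (t : ℂ) * ν) :=
      mem_gen_add (hc.smul_right _) (hRmem w) (mem_gen_smul _ h1)
    rw [cal_apply _ _ h2]
    by_cases h0 : Rμ w = 0
    · rw [h0, smul_zero, smul_zero]
    congr 1
    have hμ : T.maxGenEigenspace μ ≠ ⊥ := by
      intro h3
      have h4 := hRmem w
      rw [h3] at h4
      exact h0 ((Submodule.mem_bot ℂ).1 h4)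
    have hν : W.maxGenEigenspace ν ≠ ⊥ := by
      intro h3
      rw [h3] at h1
      exact h0 ((Submodule.mem_bot ℂ).1 h1)
    by_cases hμ0 : μ = 0
    · -- on the kernel
      have h3 : T (Rμ w) = 0 := by
        have h4 : cal T id (Rμ w) = μ • Rμ w := cal_apply T id (hRmem w)
        rw [hss, hμ0, zero_smul] at h4
        exact h4
      have h4 : W (Rμ w) = 0 := hk _ h3
      have h5 : ν = 0 := by
        by_contra hν0
        rw [Module.End.mem_maxGenEigenspace] at h1
        obtain ⟨k, hk'⟩ := h1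
        have h6 : ∀ k : ℕ, ((W - ν • (1 : End ℂ V)) ^ k) (Rμ w) = (-ν) ^ k • Rμ w := by
          intro k
          induction k with
          | zero => simp
          | succ k ih =>
            rw [pow_succ', Module.End.mul_apply, ih, map_smul, LinearMap.sub_apply, h4,
              LinearMap.smul_apply, Module.End.one_apply, zero_sub, ← neg_smul, smul_smul,
              pow_succ]
        rw [h6] at hk'
        rcases smul_eq_zero.1 hk' with h7 | h7
        · exact hν0 (neg_eq_zero.1 (eq_zero_of_pow_eq_zero h7))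
        · exact h0 h7
      rw [h5, mul_zero, add_zero]
    · have h3 := hδ2 μ (by simpa using hμ) hμ0 ν (by simpa using hν)
      unfold indR
      have h4 : (μ + (t : ℂ) * ν).re = μ.re + t * ν.re := by
        rw [Complex.add_re, Complex.re_ofReal_mul]
      have h5 : |t * ν.re| < |μ.re| := by
        rw [abs_mul]
        refine lt_of_le_of_lt ?_ h3
        gcongr
      rw [h4]
      have h6 : (0 < μ.re + t * ν.re) ↔ 0 < μ.re := by
        rcases abs_cases μ.re with ⟨h7, h8⟩ | ⟨h7, h8⟩ <;>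
        rcases abs_lt.1 h5 with ⟨h9, h10⟩
        · constructor
          · intro _
            rcases h8.lt_or_eq with h11 | h11
            · exact h11
            · rw [h7, ← h11] at h5
              exact absurd h5 (not_lt.2 (abs_nonneg _))
          · intro _; linarith
        · constructor
          · intro _; linarith
          · intro _; linarith
      simp only [h6]
  have h1 := LinearMap.congr_fun key v
  rw [Module.End.mul_apply, hRv, LinearMap.smul_apply, hRv] at h1
  exact h1

end Pool.Agent.K4H32.WD
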