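import Mathlib
import Pool.Agent.K4H32.WD.Sig

/-! In a real semisimple Lie algebra of rank at least two there is no open cone of elements with real
eigenvalues which is compact modulo automorphisms. -/

open Module Module.End LieAlgebra Filter
open scoped TensorProduct ComplexConjugate Topology

noncomputable section

set_option linter.unusedSectionVars false

namespace Pool.Agent.K4H32.WD

open Pool.Agent.K4H32.W

variable {𝔤 : Type*} [LieRing 𝔤] [LieAlgebra ℝ 𝔤] [FiniteDimensional ℝ 𝔤]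

lemma re_im_zero {x y : 𝔤} (h : (1 : ℂ) ⊗ₜ[ℝ] x + Complex.I • ((1 : ℂ) ⊗ₜ[ℝ] y) = (0 : LC 𝔤)) :
    x = 0 ∧ y = 0 := by
  have h1 := congrArg sig h
  rw [map_add, sig_smul, sig_one_tmul, sig_one_tmul, Complex.conj_I, map_zero] at h1
  have h2 : (2 : ℂ) • ((1 : ℂ) ⊗ₜ[ℝ] x : LC 𝔤) = 0 := by
    have : (2 : ℂ) • ((1 : ℂ) ⊗ₜ[ℝ] x : LC 𝔤) = ((1 : ℂ) ⊗ₜ[ℝ] x + Complex.I • ((1 : ℂ) ⊗ₜ[ℝ] y)) +
      ((1 : ℂ) ⊗ₜ[ℝ] x + -Complex.I • ((1 : ℂ) ⊗ₜ[ℝ] y)) := by
      rw [two_smul, neg_smul]; abel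
    rw [this, h, h1, add_zero]
  have h3 : ((1 : ℂ) ⊗ₜ[ℝ] x : LC 𝔤) = 0 := (smul_eq_zero.1 h2).resolve_left two_ne_zero
  have h4 : ((1 : ℂ) ⊗ₜ[ℝ] y : LC 𝔤) = 0 := by
    rw [h3, zero_add] at h
    exact (smul_eq_zero.1 h).resolve_left Complex.I_ne_zero
  constructor
  · apply one_tmul_inj; rw [h3, TensorProduct.tmul_zero]
  · apply one_tmul_inj; rw [h4, TensorProduct.tmul_zero]

lemma ker_of_centr {A ν : 𝔤} (h : ∀ x : 𝔤, ⁅A, x⁆ = 0 → ⁅ν, x⁆ = 0) (v : LC 𝔤)
    (hv : tt A v = 0) : tt ν v = 0 := by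
  obtain ⟨x, y, rfl⟩ := exists_re_im v
  rw [map_add, map_smul, LinearMap.baseChange_tmul, LinearMap.baseChange_tmul] at hv ⊢
  obtain ⟨h1, h2⟩ := re_im_zero hv
  rw [ad_apply, ad_apply, h x h1, h y h2]
  simp

variable [LieAlgebra.IsKilling ℝ 𝔤]

lemma sg_pos {A : 𝔤} (hA0 : A ≠ 0) (hss : cal (tt A) id = tt A) (hR : RealRooted (tt A)) :
    0 < sg (tt A) := by
  classical
  set T := tt A with hT
  -- there is a positive eigenvalue
  have hex : ∃ l : ℂ, T.maxGenEigenspace l ≠ ⊥ ∧ 0 < l.re := by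
    by_contra hcon
    push Not at hcon
    -- a nonzero eigenvalue
    obtain ⟨l, hl, hl0⟩ : ∃ l : ℂ, T.maxGenEigenspace l ≠ ⊥ ∧ l ≠ 0 := by
      by_contra h2
      push Not at h2
      have h3 : T = 0 := by
        rw [← hss]
        refine ext_gen T fun l v hv => ?_
        rw [cal_apply T _ hv]
        by_cases h4 : T.maxGenEigenspace l = ⊥
        · rw [h4] at hv
          rw [(Submodule.mem_bot ℂ).1 hv]; simp
        · rw [h2 l h4]; simp
      rw [hT, tt_eq] at h3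
      have h4 := ad_inj h3
      apply hA0
      apply one_tmul_inj
      rw [h4, TensorProduct.tmul_zero]
    have hlneg : l.re < 0 := by
      rcases (hcon l hl).lt_or_eq with h | h
      · exact h
      · exact absurd (Complex.ext h (hR l hl)) hl0
    obtain ⟨v, hv0, hv⟩ := exists_eigenvector hl
    apply hv0
    apply eq_zero_of_killing
    intro c
    refine gen_induction T (p := fun c => killingForm ℂ (LC 𝔤) v c = 0) (map_zero _) ?_ ?_ c
    · intro a b ha hb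
      rw [map_add, ha, hb, add_zero]
    · intro m u hu
      by_cases hm : T.maxGenEigenspace m = ⊥
      · rw [hm] at hu
        rw [(Submodule.mem_bot ℂ).1 hu, map_zero]
      have hTu : T u = m • u := by
        have := cal_apply T id hu
        rwa [hss] at this
      have hlm : l + m ≠ 0 := by
        intro h0
        have h1 := congrArg Complex.re h0
        rw [Complex.add_re, Complex.zero_re] at h1
        have := hcon m hm
        linarith
      have h1 : killingForm ℂ (LC 𝔤) (T v) u = - killingForm ℂ (LC 𝔤) v (T u) := by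
        rw [hT, tt_eq, ad_apply, ad_apply, ← lie_skew, map_neg, LinearMap.neg_apply]
        congr 1
        exact LieModule.traceForm_apply_lie_apply ℂ (LC 𝔤) (LC 𝔤) _ _ _
      rw [hv, hTu, map_smul, LinearMap.smul_apply, map_smul, smul_eq_mul, smul_eq_mul] at h1
      have h2 : (l + m) * killingForm ℂ (LC 𝔤) v u = 0 := by
        rw [add_mul, h1]; ring
      exact (mul_eq_zero.1 h2).resolve_left hlm
  obtain ⟨l₀, hl₀, hl₀'⟩ := hex
  have e : T * cal T indR = cal T (fun l => id l * indR l) := by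
    rw [← cal_mul, hss]
  unfold sg
  rw [e, trace_cal, Complex.re_sum]
  have hterm : ∀ l ∈ (finite_gen T).toFinset,
      0 ≤ ((finrank ℂ (T.maxGenEigenspace l) : ℂ) * (id l * indR l)).re := by
    intro l _
    unfold indR
    split_ifs with h
    · simp only [id, mul_one]
      rw [← Complex.ofReal_natCast, Complex.re_ofReal_mul]
      positivity
    · simp
  refine lt_of_lt_of_le ?_ (Finset.single_le_sum hterm (show l₀ ∈ _ by simpa using hl₀))
  unfold indR
  rw [if_pos hl₀']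
  simp only [id, mul_one]
  rw [← Complex.ofReal_natCast, Complex.re_ofReal_mul]
  have h1 : 0 < finrank ℂ (T.maxGenEigenspace l₀) := by
    rw [Nat.pos_iff_ne_zero]
    intro h2
    exact hl₀ (Submodule.finrank_eq_zero.1 h2)
  have h2 : (0:ℝ) < (finrank ℂ (T.maxGenEigenspace l₀) : ℝ) := by exact_mod_cast h1
  positivity

/-- the centraliser of an element of rank at least two contains an element orthogonal to it -/
lemma exists_orth (hrank : 2 ≤ LieAlgebra.rank ℝ 𝔤) {A : 𝔤} (hss : cal (tt A) id = tt A) :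
    ∃ ν : 𝔤, ν ≠ 0 ∧ ⁅A, ν⁆ = 0 ∧ killingForm ℝ 𝔤 ν A = 0 := by
  have hsub : ∀ y ∈ LieSubalgebra.engel ℝ A, ⁅A, y⁆ = 0 := by
    intro y hy
    rw [LieSubalgebra.mem_engel_iff] at hy
    obtain ⟨k, hk⟩ := hy
    have h3 : ∀ (k : ℕ) (x : 𝔤), (1 : ℂ) ⊗ₜ[ℝ] (((ad ℝ 𝔤 A) ^ k) x) =
        ((tt A) ^ k) ((1 : ℂ) ⊗ₜ[ℝ] x) := by
      intro k
      induction k with
      | zero => intro x; rfl
      | succ k ih =>
        intro x
        rw [pow_succ, pow_succ, Module.End.mul_apply, Module.End.mul_apply, ih,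
          LinearMap.baseChange_tmul]
    have h4 : (1 : ℂ) ⊗ₜ[ℝ] y ∈ (tt A).maxGenEigenspace 0 := by
      rw [Module.End.mem_maxGenEigenspace]
      refine ⟨k, ?_⟩
      rw [zero_smul, sub_zero, ← h3, hk, TensorProduct.tmul_zero]
    have h5 := cal_apply (tt A) id h4
    rw [hss, id, zero_smul, LinearMap.baseChange_tmul] at h5
    apply one_tmul_inj
    rw [TensorProduct.tmul_zero]
    exact h5
  have h1 : 2 ≤ finrank ℝ (LieSubalgebra.engel ℝ A) :=
    hrank.trans (LieAlgebra.rank_le_finrank_engel ℝ A)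
  let φ : (LieSubalgebra.engel ℝ A) →ₗ[ℝ] ℝ :=
    ((killingForm ℝ 𝔤).flip A) ∘ₗ (LieSubalgebra.engel ℝ A).toSubmodule.subtype
  have h2 : ¬ Function.Injective φ := by
    intro h3
    have h4 := LinearMap.finrank_le_finrank_of_injective h3
    rw [finrank_self] at h4
    omega
  rw [← LinearMap.ker_eq_bot, Submodule.eq_bot_iff] at h2
  push Not at h2
  obtain ⟨y, hy1, hy2⟩ := h2
  refine ⟨(y : 𝔤), fun h0 => hy2 (Subtype.ext h0), hsub _ y.2, ?_⟩
  exact LinearMap.mem_ker.1 hy1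

lemma ne_zero_of_cone (hrank : 2 ≤ LieAlgebra.rank ℝ 𝔤) {A : 𝔤}
    (hcone : ∀ w : 𝔤, ∃ ε : ℝ, 0 < ε ∧ ∀ t : ℝ, |t| < ε → RealRooted (tt (A + t • w))) :
    A ≠ 0 := by
  obtain ⟨ν, hν0, hνA, hνB⟩ := exists_orth hrank (semisimple_of_cone hcone)
  rintro rfl
  apply hν0
  apply killing_zero
  intro y
  rw [killingForm_apply_apply]
  have h1 : ad ℝ 𝔤 ν = 0 := by
    ext x
    exact centr_abelian hcone (zero_lie ν) (zero_lie x)
  rw [h1]
  simp

lemma killing_pos_of_cone (hrank : 2 ≤ LieAlgebra.rank ℝ 𝔤) {A : 𝔤}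
    (hcone : ∀ w : 𝔤, ∃ ε : ℝ, 0 < ε ∧ ∀ t : ℝ, |t| < ε → RealRooted (tt (A + t • w))) :
    0 < killingForm ℝ 𝔤 A A := by
  refine lt_of_le_of_ne (killing_nonneg hcone (lie_self A)) fun h0 => ?_
  exact ne_zero_of_cone hrank hcone (killing_def hcone (lie_self A) h0.symm)

/-- **Main algebraic statement.** -/
theorem cone_contra (hrank : 2 ≤ LieAlgebra.rank ℝ 𝔤) (C : Set 𝔤)
    (hopen : ∀ A ∈ C, ∀ w : 𝔤, ∃ ε : ℝ, 0 < ε ∧ ∀ t : ℝ, |t| < ε → A + t • w ∈ C)
    (hreal : ∀ A ∈ C, RealRooted (tt A)) {A : 𝔤} (hA : A ∈ C) {ρ : ℝ}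
    (heq : sg (tt A) = ρ * √(killingForm ℝ 𝔤 A A))
    (hmin : ∀ A' ∈ C, ρ * √(killingForm ℝ 𝔤 A' A') ≤ sg (tt A')) : False := by
  have hcone : ∀ w : 𝔤, ∃ ε : ℝ, 0 < ε ∧ ∀ t : ℝ, |t| < ε → RealRooted (tt (A + t • w)) := by
    intro w
    obtain ⟨ε, hε, h⟩ := hopen A hA w
    exact ⟨ε, hε, fun t ht => hreal _ (h t ht)⟩
  have hss := semisimple_of_cone hcone
  have hR := realRooted_self hcone
  obtain ⟨ν, hν0, hνA, hνB⟩ := exists_orth hrank hss
  have hAne : A ≠ 0 := ne_zero_of_cone hrank hcone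
  have hBA : 0 < killingForm ℝ 𝔤 A A := killing_pos_of_cone hrank hcone
  have hBν : 0 < killingForm ℝ 𝔤 ν ν := by
    refine lt_of_le_of_ne (killing_nonneg hcone hνA) fun h0 => ?_
    exact hν0 (killing_def hcone hνA h0.symm)
  have hspos := sg_pos hAne hss hR
  have hρ : 0 < ρ := by
    rw [heq] at hspos
    exact pos_of_mul_pos_left hspos (Real.sqrt_nonneg _)
  obtain ⟨δ, hδ, hcal⟩ := cal_perturb (tt_commute hνA) hss hR
    (ker_of_centr fun x hx => centr_abelian hcone hνA hx)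
  obtain ⟨ε, hε, hC⟩ := hopen A hA ν
  set t := min δ ε / 2 with ht
  have htpos : 0 < t := by
    have := lt_min hδ hε
    linarith
  have htδ : t < δ := by
    have := min_le_left δ ε
    have := lt_min hδ hε
    linarith
  have htε : t < ε := by
    have := min_le_right δ ε
    have := lt_min hδ hε
    linarith
  have hsg : ∀ r : ℝ, |r| < δ → sg (tt (A + r • ν)) =
      sg (tt A) + r * (LinearMap.trace ℂ (LC 𝔤) (tt ν * cal (tt A) indR)).re := by
    intro r hr
    rw [tt_add, tt_smul]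
    unfold sg
    rw [hcal r hr, add_mul, map_add, Complex.add_re, smul_mul_assoc, map_smul, smul_eq_mul,
      Complex.re_ofReal_mul]
  have hB : ∀ r : ℝ, killingForm ℝ 𝔤 (A + r • ν) (A + r • ν) =
      killingForm ℝ 𝔤 A A + r ^ 2 * killingForm ℝ 𝔤 ν ν := by
    intro r
    have e1 : killingForm ℝ 𝔤 A ν = 0 := by
      rw [← hνB]; exact LieModule.traceForm_comm ℝ 𝔤 𝔤 A ν
    simp only [map_add, map_smul, LinearMap.add_apply, LinearMap.smul_apply, smul_eq_mul]
    rw [e1, hνB]; ring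
  have h1 := hmin _ (hC t (by rwa [abs_of_pos htpos]))
  have h2 := hmin _ (hC (-t) (by rwa [abs_neg, abs_of_pos htpos]))
  rw [hsg t (by rwa [abs_of_pos htpos]), hB] at h1
  rw [hsg (-t) (by rwa [abs_neg, abs_of_pos htpos]), hB, neg_sq] at h2
  have h3 : ρ * √(killingForm ℝ 𝔤 A A + t ^ 2 * killingForm ℝ 𝔤 ν ν) ≤
      ρ * √(killingForm ℝ 𝔤 A A) := by
    rw [heq] at h1 h2
    linarith
  have h4 := le_of_mul_le_mul_left h3 hρ
  have h5 : √(killingForm ℝ 𝔤 A A) <
      √(killingForm ℝ 𝔤 A A + t ^ 2 * killingForm ℝ 𝔤 ν ν) := by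
    apply Real.sqrt_lt_sqrt hBA.le
    have : 0 < t ^ 2 * killingForm ℝ 𝔤 ν ν := by positivity
    linarith
  linarith

end Pool.Agent.K4H32.WD
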