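import Mathlib
import Pool.Agent.K4H32.W.Main
import Pool.Agent.K4H32.WD.Cone
import Pool.Agent.K4H32.WD.Contra

/-! Locally free local symmetries by semisimple groups of rank at least two. -/

open scoped Topology ContDiff Manifold TensorProduct ComplexConjugate
open Module Module.End LieAlgebra Filter Pool.Agent.Helper186 Pool.Agent.H826R2.WStmt
  Pool.Agent.K4H32.WS Pool.Agent.K4H32.W

noncomputable section

set_option linter.unusedSectionVars false

namespace Pool.Agent.K4H32.WD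

universe u

variable {E : Type u} [NormedAddCommGroup E] [NormedSpace ℝ E] [FiniteDimensional ℝ E]
  {M : Type*} [TopologicalSpace M] [ChartedSpace E M] [IsManifold 𝓘(ℝ, E) ∞ M]
  {P : Type*} [TopologicalSpace P] [ChartedSpace E P] [IsManifold 𝓘(ℝ, E) ∞ P]
  {𝔤 : Type*} [LieRing 𝔤] [LieAlgebra ℝ 𝔤] [FiniteDimensional ℝ 𝔤] [LieAlgebra.IsKilling ℝ 𝔤]
  {n : ℕ} {b : Basis (Fin n) ℝ 𝔤}

/-- the velocity of `act (t κ) x` at `t = 0` -/
def vel {β : P → Cov E} (A : GroupSymmetry β b) (κ : 𝔤) (x : P) : E :=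
  D (E := ℝ) (E' := E) (fun t : ℝ => A.act (t • κ) x) 0 1

lemma vel_eq {β : P → Cov E} (A : GroupSymmetry β b) (κ : 𝔤) (x : P) :
    vel A κ x = ((toLAct A).X (b.equivFun κ) x : E) := by
  have h := ((toLAct A).hasMFDerivAt_fam_zero (b.equivFun κ) x).mfderiv
  have e : (fun t : ℝ => (toLAct A).fam (b.equivFun κ) (t, x)) = fun t : ℝ => A.act (t • κ) x := by
    ext1 t
    show A.act (b.equivFun.symm (t • b.equivFun κ)) x = _
    rw [map_smul, LinearEquiv.symm_apply_apply]
  rw [e] at h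
  have h1 : (D (E := ℝ) (E' := E) (fun t : ℝ => A.act (t • κ) x) 0 1 : E) =
      (1:ℝ) • ((toLAct A).X (b.equivFun κ) x : E) := DFunLike.congr_fun h (1:ℝ)
  rw [one_smul] at h1
  exact h1

/-- real eigenvalues -/
lemma realRooted_of_not {a : 𝔤} (h : ¬ HasNonrealEigenvalue a) : RealRooted (tt a) := by
  intro l hl
  by_contra him
  apply h
  refine ⟨l, him, ?_⟩
  obtain ⟨y, hy0, hy⟩ := exists_eigenvector hl
  rw [← LinearMap.charpoly_baseChange]
  exact (Module.End.hasEigenvalue_iff_isRoot_charpoly _ l).1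
    (Module.End.hasEigenvalue_of_hasEigenvector ⟨Module.End.mem_eigenspace_iff.2 hy, hy0⟩)

/-- **Main theorem.** -/
theorem exists_periodic_locally_free [CompactSpace M] [Nonempty P]
    (α : M → Cov E) (hα : IsContact α) (R : M → E) (hR : IsReeb α R)
    {Γ : Type*} [Group Γ] [MulAction Γ P] (q : P → M) (hq : IsQuotientMap E q Γ)
    (hrank : 2 ≤ LieAlgebra.rank ℝ 𝔤)
    (A : GroupSymmetry (pull (E := E) q α) b) (hA : A.Normalised Γ)
    (hfree : ∀ κ : 𝔤, κ ≠ 0 → ∀ x : P, vel A κ x ≠ 0) :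
    ∃ (c : ℝ → M) (T : ℝ), IsPeriodicOrbit R c T := by
  have hq' : H826R2.Wein.RegCover (E := E) q Γ := hq.toWein
  let B : LAct (Fin n → ℝ) (pullForm 𝓘(ℝ, E) 𝓘(ℝ, E) q (toForm α)) := toLAct A
  have hcP := hq'.isContact_pull hα.toWein
  have hRP := hq'.isReeb_lift hα.toWein hR.toWein
  have hham : ∀ (κ : 𝔤) (x : P), A.ham κ x = B.H (b.equivFun κ) x := ham_eq A
  have hnd := LieAlgebra.IsKilling.killingForm_nondegenerate ℝ 𝔤
  let Ψ : (𝔤 →ₗ[ℝ] ℝ) ≃ₗ[ℝ] 𝔤 := (LinearMap.BilinForm.toDual (killingForm ℝ 𝔤) hnd).symm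
  have hΨ : ∀ (f : 𝔤 →ₗ[ℝ] ℝ) (κ : 𝔤), killingForm ℝ 𝔤 (Ψ f) κ = f κ := fun f κ =>
    LinearMap.BilinForm.apply_toDual_symm_apply (hB := hnd) f κ
  have hinj : ∀ y z : 𝔤, (∀ κ, killingForm ℝ 𝔤 y κ = killingForm ℝ 𝔤 z κ) → y = z := by
    intro y z h
    have h1 : LinearMap.BilinForm.toDual (killingForm ℝ 𝔤) hnd y =
        LinearMap.BilinForm.toDual (killingForm ℝ 𝔤) hnd z := by
      ext κ
      exact h κ
    exact (LinearMap.BilinForm.toDual (killingForm ℝ 𝔤) hnd).injective h1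
  -- the momentum
  let f : P → (𝔤 →ₗ[ℝ] ℝ) := fun x =>
    { toFun := fun κ => B.H (b.equivFun κ) x
      map_add' := fun κ κ' => by rw [map_add, B.H_add]
      map_smul' := fun c κ => by rw [map_smul, B.H_smul]; rfl }
  let a : P → 𝔤 := fun x => Ψ (f x)
  have ha : ∀ x κ, killingForm ℝ 𝔤 (a x) κ = B.H (b.equivFun κ) x := fun x κ => hΨ (f x) κ
  by_cases hcase : ∃ (x : P) (a : 𝔤), A.IsMomentum x a ∧ HasNonrealEigenvalue a
  · obtain ⟨x₁, a₁, h1, h2⟩ := hcase
    exact exists_periodic_semisimple α hα R hR q hq A hA h1 h2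
  exfalso
  have hreal : ∀ x, RealRooted (tt (a x)) := by
    intro x
    apply realRooted_of_not
    intro h
    exact hcase ⟨x, a x, fun κ => by rw [hham, ha], h⟩
  let T : P → End ℂ (LC 𝔤) := fun x => tt (a x)
  let h : Fin n → P → ℝ := fun i x => B.H (b.equivFun (b i)) x
  let hh : P → (Fin n → ℝ) := fun x i => h i x
  let N : Fin n → End ℂ (LC 𝔤) := fun i => (ad ℝ 𝔤 (Ψ (b.coord i))).baseChange ℂ
  have hsm : ∀ i, ContMDiff 𝓘(ℝ, E) 𝓘(ℝ, ℝ) ∞ (h i) := fun i => B.smooth_H hcP.smooth _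
  have hhsm : ContMDiff 𝓘(ℝ, E) 𝓘(ℝ, Fin n → ℝ) ∞ hh := contMDiff_pi_space.2 hsm
  -- the linear isomorphism with coordinates
  let Λ : (Fin n → ℝ) ≃ₗ[ℝ] 𝔤 := b.dualBasis.equivFun.symm.trans Ψ
  have hΛ : ∀ y, Λ y = ∑ i, y i • Ψ (b.coord i) := by
    intro y
    show Ψ (b.dualBasis.equivFun.symm y) = _
    rw [Basis.equivFun_symm_apply, map_sum]
    refine Finset.sum_congr rfl fun i _ => ?_
    rw [map_smul, Basis.coe_dualBasis]
  have haΛ : ∀ x, a x = Λ (hh x) := by
    intro x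
    rw [hΛ]
    have e1 : f x = ∑ i, (h i x) • b.coord i := by
      refine b.ext fun j => ?_
      rw [LinearMap.sum_apply, Finset.sum_eq_single j]
      · simp [f, h]
      · intro i _ hij
        simp [hij.symm]
      · simp
    simp only [a]
    rw [e1, map_sum]
    exact Finset.sum_congr rfl fun i _ => map_smul Ψ _ _
  have hT : ∀ x, T x = ∑ i, (h i x : ℂ) • N i := by
    intro x
    have e3 : ∀ (s : Finset (Fin n)), ((ad ℝ 𝔤 (∑ i ∈ s, (h i x) • Ψ (b.coord i))).baseChange ℂ :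
        LC 𝔤 →ₗ[ℂ] LC 𝔤) = ∑ i ∈ s, (h i x : ℂ) • N i := by
      intro s
      induction s using Finset.induction_on with
      | empty => simp
      | insert i s hi ih =>
        rw [Finset.sum_insert hi, Finset.sum_insert hi, map_add, LinearMap.baseChange_add, ih,
          map_smul, LinearMap.baseChange_smul]
        rfl
    show (ad ℝ 𝔤 (a x)).baseChange ℂ = _
    rw [haΛ, hΛ]
    exact e3 Finset.univ
  -- the cone
  let C : Set 𝔤 := {y | ∃ (x : P) (s : ℝ), 0 < s ∧ y = s • a x}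
  have hreg : ∀ (x : P) (ζ : Fin n → ℝ), (∑ i, ζ i * hh x i = 0) →
      (∀ v : E, ∑ i, ζ i * (show Fin n → ℝ from mfderiv 𝓘(ℝ, E) 𝓘(ℝ, Fin n → ℝ) hh x v) i = 0) →
      ζ = 0 := by
    intro x ζ h1 h2
    have hsum : ∀ y, B.H ζ y = ∑ i, ζ i * hh y i := by
      intro y
      have e0 : ∀ i, b.equivFun (b i) = Pi.single i (1:ℝ) := by
        intro i
        ext j
        rw [Basis.equivFun_apply, Basis.repr_self, Finsupp.single_apply, Pi.single_apply]
        simp only [eq_comm]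
      have e1 : ζ = ∑ i, ζ i • b.equivFun (b i) := by
        ext j
        rw [Finset.sum_apply, Finset.sum_eq_single j]
        · rw [e0]; simp
        · intro i _ hij
          rw [e0]; simp [Pi.single_apply, hij.symm]
        · simp
      have e2 : ∀ s : Finset (Fin n), B.H (∑ i ∈ s, ζ i • b.equivFun (b i)) y =
          ∑ i ∈ s, ζ i * hh y i := by
        intro s
        induction s using Finset.induction_on with
        | empty =>
          have := B.H_smul 0 0 y
          simpa using this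
        | insert i s hi ih =>
          rw [Finset.sum_insert hi, Finset.sum_insert hi, B.H_add, B.H_smul, ih]
      conv_lhs => rw [e1]
      exact e2 Finset.univ
    have hcrit : dForm 𝓘(ℝ, E) (B.H ζ) x = 0 := by
      let lin : (Fin n → ℝ) →L[ℝ] ℝ := ∑ i, ζ i • ContinuousLinearMap.proj i
      have e1 : B.H ζ = fun y => lin (hh y) := by
        ext1 y
        rw [hsum]
        simp [lin]
      have h3 : HasMFDerivAt 𝓘(ℝ, E) 𝓘(ℝ, Fin n → ℝ) hh x
          (mfderiv 𝓘(ℝ, E) 𝓘(ℝ, Fin n → ℝ) hh x) :=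
        (hhsm.mdifferentiableAt (by simp)).hasMFDerivAt
      have h4 := HasMFDerivAt.comp x (g := fun z : Fin n → ℝ => lin z) (f := hh)
        (lin.hasFDerivAt.hasMFDerivAt) h3
      have h5 : mfderiv 𝓘(ℝ, E) 𝓘(ℝ, ℝ) (B.H ζ) x = 0 := by
        rw [e1]
        have h6 := h4.mfderiv
        have h7 : (fun y => lin (hh y)) = (fun z : Fin n → ℝ => lin z) ∘ hh := rfl
        rw [h7, h6]
        refine ContinuousLinearMap.ext fun v => ?_
        have h8 := h2 v
        show lin (show Fin n → ℝ from mfderiv 𝓘(ℝ, E) 𝓘(ℝ, Fin n → ℝ) hh x v) = 0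
        rw [← h8]
        simp [lin]
      exact h5
    by_contra hζ
    have hX := B.X_eq_of_crit hcP hRP hcrit
    have h0 : B.H ζ x = 0 := by rw [hsum]; exact h1
    rw [h0, zero_smul] at hX
    apply hfree (b.equivFun.symm ζ) (fun h => hζ ((LinearEquiv.map_eq_zero_iff _).1 h)) x
    rw [vel_eq, LinearEquiv.apply_symm_apply]
    exact hX
  have hopen : ∀ y ∈ C, ∀ w : 𝔤, ∃ ε : ℝ, 0 < ε ∧ ∀ t : ℝ, |t| < ε → y + t • w ∈ C := by
    rintro y ⟨x, s, hs, rfl⟩ w
    have h1 := cone_nhds hh hhsm x (hreg x)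
    have h2 : Continuous fun t : ℝ => hh x + (t * s⁻¹) • Λ.symm w := by fun_prop
    have h3 : Tendsto (fun t : ℝ => hh x + (t * s⁻¹) • Λ.symm w) (𝓝 0) (𝓝 (hh x)) := by
      have := h2.tendsto 0
      simpa using this
    have h4 := h3.eventually h1
    rw [Metric.eventually_nhds_iff] at h4
    obtain ⟨ε, hε, h5⟩ := h4
    refine ⟨ε, hε, fun t ht => ?_⟩
    obtain ⟨x', s', hs', h6⟩ := h5 (y := t) (by rwa [Real.dist_eq, sub_zero])
    refine ⟨x', s * s', mul_pos hs hs', ?_⟩
    have h7 := congrArg Λ h6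
    rw [map_add, map_smul, map_smul, ← haΛ, ← haΛ, LinearEquiv.apply_symm_apply] at h7
    rw [mul_smul, ← h7, smul_add, smul_smul]
    congr 2
    field_simp
  have hCreal : ∀ y ∈ C, RealRooted (tt y) := by
    rintro y ⟨x, s, hs, rfl⟩ l hl
    rw [tt_smul] at hl
    have hs0 : (s : ℂ) ≠ 0 := by exact_mod_cast hs.ne'
    obtain ⟨v, hv0, hv⟩ := exists_eigenvector hl
    have h1 : tt (a x) v = ((s : ℂ)⁻¹ * l) • v := by
      rw [mul_smul, ← hv, LinearMap.smul_apply, smul_smul, inv_mul_cancel₀ hs0, one_smul]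
    have h2 := hreal x _ (gen_ne_bot hv0 h1)
    rw [← Complex.ofReal_inv, Complex.im_ofReal_mul] at h2
    exact (mul_eq_zero.1 h2).resolve_left (inv_ne_zero hs.ne')
  have hmemC : ∀ x, a x ∈ C := fun x => ⟨x, 1, one_pos, (one_smul ℝ _).symm⟩
  have hpos : ∀ x, 0 < killingForm ℝ 𝔤 (a x) (a x) := by
    intro x
    apply killing_pos_of_cone hrank
    intro w
    obtain ⟨ε, hε, h1⟩ := hopen _ (hmemC x) w
    exact ⟨ε, hε, fun t ht => hCreal _ (h1 t ht)⟩
  -- invariance
  obtain ⟨K, hK, hcovK⟩ := hq'.exists_domain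
  have hcov : ∀ x, ∃ y ∈ K, sg (T y) = sg (T x) ∧
      killingForm ℝ 𝔤 (a y) (a y) = killingForm ℝ 𝔤 (a x) (a x) := by
    intro x
    obtain ⟨γ, hγ⟩ := hcovK x
    obtain ⟨g, hg⟩ := hA γ
    have hax : a (γ • x) = g (a x) := by
      apply hinj
      intro κ
      obtain ⟨κ', hκ'⟩ : ∃ κ', g κ' = κ := ⟨g.symm κ, g.apply_symm_apply κ⟩
      subst hκ'
      have e1 : killingForm ℝ 𝔤 (g (a x)) (g κ') = killingForm ℝ 𝔤 (a x) κ' :=
        LieAlgebra.killingForm_of_equiv_apply g (a x) κ'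
      rw [e1, ha, ha]
      refine B.H_push (hq.smooth γ) (κ := b.equivFun κ') (κ' := b.equivFun (g κ')) ?_
        (hq'.strict _ γ) x
      intro t y
      show γ • A.act (b.equivFun.symm (t • b.equivFun κ')) y =
        A.act (b.equivFun.symm (t • b.equivFun (g κ'))) (γ • y)
      have e2 : b.equivFun.symm (t • b.equivFun κ') = t • κ' := by
        rw [map_smul, LinearEquiv.symm_apply_apply]
      have e3 : b.equivFun.symm (t • b.equivFun (g κ')) = t • g κ' := by
        rw [map_smul, LinearEquiv.symm_apply_apply]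
      rw [hg, e2, e3, map_smul]
    refine ⟨γ • x, hγ, ?_, ?_⟩
    · refine (sg_conj (LinearEquiv.baseChange ℝ ℂ 𝔤 𝔤 g.toLinearEquiv) fun v => ?_).symm
      show (ad ℝ 𝔤 (a (γ • x))).baseChange ℂ _ = _
      rw [hax]
      induction v using TensorProduct.induction_on with
      | zero => simp
      | tmul z w =>
        simp only [LinearEquiv.baseChange_tmul, LinearMap.baseChange_tmul, T]
        congr 1
        exact (LieEquiv.map_lie g (a x) w).symm
      | add v w hv hw => rw [map_add, map_add, hv, hw, map_add, map_add]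
    · rw [hax]
      exact LieAlgebra.killingForm_of_equiv_apply g (a x) (a x)
  have hKne : K.Nonempty := by
    obtain ⟨y, hy, -⟩ := hcov (Classical.arbitrary P)
    exact ⟨y, hy⟩
  -- the function `sg / sqrt B`
  let G : P → ℝ := fun x => √(killingForm ℝ 𝔤 (a x) (a x))
  have hGpos : ∀ x, 0 < G x := fun x => Real.sqrt_pos.2 (hpos x)
  have hGcont : Continuous G := by
    have h1 : ∀ x, killingForm ℝ 𝔤 (a x) (a x) =
        ∑ i, ∑ j, h i x * (h j x * killingForm ℝ 𝔤 (Ψ (b.coord i)) (Ψ (b.coord j))) := by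
      intro x
      rw [haΛ, hΛ]
      simp only [map_sum, map_smul, LinearMap.sum_apply, LinearMap.smul_apply, smul_eq_mul,
        Finset.mul_sum]
      rw [Finset.sum_comm]
      refine Finset.sum_congr rfl fun i _ => Finset.sum_congr rfl fun j _ => ?_
      show hh x j * (hh x i * _) = hh x i * (hh x j * _)
      ring
    have h2 : Continuous fun x => killingForm ℝ 𝔤 (a x) (a x) := by
      rw [show (fun x => killingForm ℝ 𝔤 (a x) (a x)) = _ from funext h1]
      refine continuous_finsetSum _ fun i _ => continuous_finsetSum _ fun j _ => ?_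
      exact (hsm i).continuous.mul ((hsm j).continuous.mul continuous_const)
    exact h2.sqrt
  have hlsc : LowerSemicontinuousOn (fun x => sg (T x) / G x) K := by
    rw [lowerSemicontinuousOn_iff]
    intro x₀ _
    rw [lowerSemicontinuousWithinAt_iff]
    intro c hc
    apply mem_nhdsWithin_of_mem_nhds
    have h1 : c * G x₀ < sg (T x₀) := by rwa [lt_div_iff₀ (hGpos x₀)] at hc
    obtain ⟨c', hc1, hc2⟩ := exists_between h1
    have h2 := sg_lsc h (fun i => (hsm i).continuous) N T hT hc2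
    have h3 : ∀ᶠ x in 𝓝 x₀, c * G x < c' :=
      (continuous_const.mul hGcont).continuousAt.eventually_lt_const hc1
    filter_upwards [h2, h3] with x h4 h5
    rw [lt_div_iff₀ (hGpos x)]
    exact h5.trans h4
  obtain ⟨x₀, -, hmin⟩ := hlsc.exists_isMinOn hKne hK
  set ρ := sg (T x₀) / G x₀ with hρ
  have hminP : ∀ x, ρ * G x ≤ sg (T x) := by
    intro x
    obtain ⟨y, hy, h1, h2⟩ := hcov x
    have h3 := isMinOn_iff.1 hmin y hy
    have h4 : G y = G x := by simp only [G]; rw [h2]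
    rw [h1, h4] at h3
    rw [← le_div_iff₀ (hGpos x)]
    exact h3
  refine cone_contra hrank C hopen hCreal (hmemC x₀) (ρ := ρ) ?_ ?_
  · show sg (T x₀) = ρ * G x₀
    rw [hρ, div_mul_cancel₀ _ (hGpos x₀).ne']
  · rintro y ⟨x, s, hs, rfl⟩
    have e1 : killingForm ℝ 𝔤 (s • a x) (s • a x) = s ^ 2 * killingForm ℝ 𝔤 (a x) (a x) := by
      simp only [map_smul, LinearMap.smul_apply, smul_eq_mul]; ring
    rw [e1, Real.sqrt_mul (by positivity), Real.sqrt_sq hs.le, tt_smul, sg_smul hs]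
    have := hminP x
    calc ρ * (s * G x) = s * (ρ * G x) := by ring
      _ ≤ s * sg (T x) := by gcongr

end Pool.Agent.K4H32.WD
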