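import Mathlib
import Pool.Agent.K4H32.W.Stmt

/-! Locally free local symmetries by semisimple groups: definitions for the statement. -/

open scoped Topology ContDiff Manifold
open Module LieAlgebra Pool.Agent.H826R2.WStmt Pool.Agent.K4H32.WS

noncomputable section

namespace Pool.Agent.K4H32.WDS

variable {E : Type*} [NormedAddCommGroup E] [NormedSpace ℝ E]
  {P : Type*} [TopologicalSpace P] [ChartedSpace E P]
  {𝔤 : Type*} [LieRing 𝔤] [LieAlgebra ℝ 𝔤] {n : ℕ}

/-- The action is locally free: for every `κ ≠ 0` and every point `x` the curve `exp(t κ) x` has a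
nonzero velocity at `t = 0` (equivalently, all isotropy groups are discrete). -/
def LocallyFree {β : P → Cov E} {b : Basis (Fin n) ℝ 𝔤} (A : GroupSymmetry β b) : Prop :=
  ∀ κ : 𝔤, κ ≠ 0 → ∀ x : P, D (E := ℝ) (E' := E) (fun t : ℝ => A.act (t • κ) x) 0 1 ≠ 0

end Pool.Agent.K4H32.WDS
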